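import Pool.Agent.MP_9f080f_an.Mg.Planch
import Pool.Agent.MP_9f080f_an.Mg.TransferA
import Pool.Agent.MP_9f080f_an.Mg.LocB
import Pool.Agent.MP_9f080f_an.Mg.Contour
import Pool.Agent.MP_9f080f_an.Mg.G_AB

namespace Pool.Agent.MP_9f080f_an
open Complex MeasureTheory Set Filter Topology Metric
open scoped Real FourierTransform

noncomputable section

/-! Superpositions of Gaussians are Schwartz functions. -/

lemma ex_closed {S : Set (ℝ → ℂ)} (h1 : ∀ f ∈ S, Differentiable ℝ f ∧ deriv f ∈ S)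
    (h2 : ∀ f ∈ S, (fun x : ℝ => x * f x) ∈ S) (h3 : ∀ f ∈ S, ∃ C : ℝ, ∀ x, ‖f x‖ ≤ C)
    {f : ℝ → ℂ} (hf : f ∈ S) : ∃ b : SchwartzMap ℝ ℂ, ∀ x, b x = f x := by
  have a1 : ∀ n : ℕ, ∀ f ∈ S, ContDiff ℝ n f := by
    intro n
    induction n with
    | zero => exact fun f hf => contDiff_zero.2 (h1 f hf).1.continuous
    | succ n ih =>
      intro f hf
      push_cast
      exact contDiff_succ_iff_deriv.2 ⟨(h1 f hf).1, by simp, ih _ (h1 f hf).2⟩
  have a2 : ∀ n : ℕ, iteratedDeriv n f ∈ S := by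
    intro n
    induction n with
    | zero => simpa using hf
    | succ n ih => rw [iteratedDeriv_succ]; exact (h1 _ ih).2
  have a3 : ∀ k : ℕ, ∀ g ∈ S, (fun x : ℝ => x ^ k * g x) ∈ S := by
    intro k g hg
    induction k with
    | zero => simpa using hg
    | succ k ih => simpa only [pow_succ', mul_assoc] using h2 _ ih
  refine ⟨⟨f, contDiff_infty.2 fun n => a1 n f hf, fun k n => ?_⟩, fun _ => rfl⟩
  obtain ⟨C, hC⟩ := h3 _ (a3 k _ (a2 n))
  refine ⟨C, fun x => ?_⟩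
  have := hC x
  rwa [norm_mul, norm_pow, norm_real, ← norm_iteratedFDeriv_eq_norm_iteratedDeriv] at this

/-- amplitudes and Gaussian parameters along a path that ends at a cusp -/
structure ExD (c w : ℝ → ℂ) (C : ℝ) : Prop where
  mc : AEStronglyMeasurable c (volume.restrict (Ioi (1 / 2 : ℝ)))
  mw : Measurable w
  bc : ∀ η : ℝ, 1 / 2 < η → ‖c η‖ ≤ C * Real.exp (-η)
  bw : ∀ η : ℝ, 1 / 2 < η → ‖w η‖ ≤ 1 ∧ 1 / (2 * η) ≤ (w η).im

lemma ex_mom (b : ℕ) : IntegrableOn (fun η : ℝ => Real.exp (-η) * (2 * η) ^ b) (Ioi (1 / 2)) := by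
  have h := (Real.GammaIntegral_convergent (s := b + 1) (by positivity)).mono_set
    (Ioi_subset_Ioi (show (0 : ℝ) ≤ 1 / 2 by norm_num))
  simp only [add_sub_cancel_right, Real.rpow_natCast] at h
  refine IntegrableOn.congr_fun (h.const_mul (2 ^ b)) (fun η _ => ?_) measurableSet_Ioi
  simp only [mul_pow]
  ring

lemma ex_gauss (b : ℕ) {η : ℝ} (hη : 1 / 2 < η) {w : ℂ} (hw : 1 / (2 * η) ≤ w.im) (x : ℝ) :
    ‖(x : ℂ) ^ b * ep (x ^ 2 * w)‖ ≤ (1 + b.factorial) * (2 * η) ^ b := by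
  have h1 : 1 ≤ (2 * η) ^ b := one_le_pow₀ (by linarith)
  have h0 : 0 < 2 * η := by linarith
  have e : ((x : ℂ) ^ 2 * w).im = x ^ 2 * w.im := by rw [← ofReal_pow, im_ofReal_mul]
  have s0 : 0 ≤ x ^ 2 / (2 * η) := by positivity
  have s1 : x ^ 2 / (2 * η) ≤ π * (x ^ 2 * w.im) := by
    have := mul_le_mul_of_nonneg_left hw (sq_nonneg x)
    rw [mul_one_div] at this
    nlinarith [Real.pi_gt_three]
  have s2 : Real.exp (-π * (x ^ 2 * w.im)) ≤ Real.exp (-(x ^ 2 / (2 * η))) :=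
    Real.exp_le_exp.2 (by linarith)
  have s3 := Real.pow_div_factorial_le_exp _ s0 b
  have s4 : |x| ^ b ≤ 1 + (x ^ 2) ^ b := by
    rw [← sq_abs x, ← pow_mul, mul_comm, pow_mul]
    nlinarith [sq_nonneg (|x| ^ b - 1), pow_nonneg (abs_nonneg x) b]
  have s5 : Real.exp (-(x ^ 2 / (2 * η))) ≤ 1 := Real.exp_le_one_iff.2 (by linarith)
  have f0 : (0 : ℝ) < b.factorial := by exact_mod_cast b.factorial_pos
  have s6 : (x ^ 2) ^ b * Real.exp (-(x ^ 2 / (2 * η))) ≤ b.factorial * (2 * η) ^ b := by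
    rw [div_pow, div_div, div_le_iff₀ (by positivity)] at s3
    rw [Real.exp_neg, ← div_eq_mul_inv, div_le_iff₀ (Real.exp_pos _)]
    linarith
  rw [norm_mul, norm_pow, norm_real, Real.norm_eq_abs, norm_ep, e]
  calc _ ≤ (1 + (x ^ 2) ^ b) * Real.exp (-(x ^ 2 / (2 * η))) := by gcongr
    _ ≤ _ := by nlinarith

/-- moments of the superposition -/
def exI (c w : ℝ → ℂ) (a b : ℕ) (x : ℝ) : ℂ :=
  ∫ η in Ioi (1 / 2 : ℝ), c η * w η ^ a * (x ^ b * ep (x ^ 2 * w η))

lemma ExD.bd {c w : ℝ → ℂ} {C : ℝ} (h : ExD c w C) (a b : ℕ) (x : ℝ) {η : ℝ} (hη : 1 / 2 < η) :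
    ‖c η * w η ^ a * (x ^ b * ep (x ^ 2 * w η))‖
      ≤ C * (1 + b.factorial) * (Real.exp (-η) * (2 * η) ^ b) := by
  have h1 := h.bc η hη
  have h2 : ‖w η‖ ^ a ≤ 1 := pow_le_one₀ (norm_nonneg _) (h.bw η hη).1
  rw [norm_mul, norm_mul, norm_pow]
  calc _ ≤ C * Real.exp (-η) * 1 * ((1 + b.factorial) * (2 * η) ^ b) :=
        mul_le_mul (mul_le_mul h1 h2 (by positivity) ((norm_nonneg _).trans h1))
          (ex_gauss b hη (h.bw η hη).2 x) (norm_nonneg _)
          (mul_nonneg ((norm_nonneg _).trans h1) zero_le_one)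
    _ = _ := by ring

lemma ExD.meas {c w : ℝ → ℂ} {C : ℝ} (h : ExD c w C) (a b : ℕ) (x : ℝ) : AEStronglyMeasurable
    (fun η => c η * w η ^ a * (x ^ b * ep (x ^ 2 * w η))) (volume.restrict (Ioi (1 / 2 : ℝ))) :=
  (h.mc.mul (h.mw.pow_const a).aestronglyMeasurable).mul
    ((continuous_ep.measurable.comp (h.mw.const_mul _)).const_mul _).aestronglyMeasurable

lemma ExD.int {c w : ℝ → ℂ} {C : ℝ} (h : ExD c w C) (a b : ℕ) (x : ℝ) :
    IntegrableOn (fun η => c η * w η ^ a * (x ^ b * ep (x ^ 2 * w η))) (Ioi (1 / 2 : ℝ)) :=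
  Integrable.mono' ((ex_mom b).const_mul _) (h.meas a b x)
    ((ae_restrict_mem measurableSet_Ioi).mono fun _ hη => h.bd a b x hη)

lemma ExD.deriv {c w : ℝ → ℂ} {C : ℝ} (h : ExD c w C) (a b : ℕ) (x : ℝ) :
    HasDerivAt (exI c w a b)
      (b * exI c w a (b - 1) x + 2 * π * I * exI c w (a + 1) (b + 1) x) x := by
  have key := hasDerivAt_integral_of_dominated_loc_of_deriv_le
    (μ := volume.restrict (Ioi (1 / 2 : ℝ))) (s := univ) (x₀ := x)
    (F := fun (x : ℝ) η => c η * w η ^ a * (x ^ b * ep (x ^ 2 * w η)))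
    (F' := fun (x : ℝ) η => b * (c η * w η ^ a * (x ^ (b - 1) * ep (x ^ 2 * w η)))
      + 2 * π * I * (c η * w η ^ (a + 1) * (x ^ (b + 1) * ep (x ^ 2 * w η))))
    (bound := fun η => b * (C * (1 + (b - 1).factorial) * (Real.exp (-η) * (2 * η) ^ (b - 1)))
      + 2 * π * (C * (1 + (b + 1).factorial) * (Real.exp (-η) * (2 * η) ^ (b + 1))))
    univ_mem (Eventually.of_forall fun x => h.meas a b x) (h.int a b x)
    (((h.meas a (b - 1) x).const_mul _).add ((h.meas (a + 1) (b + 1) x).const_mul _))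
    ((ae_restrict_mem measurableSet_Ioi).mono fun η hη x _ => by
      refine (norm_add_le _ _).trans (add_le_add ?_ ?_)
      · rw [norm_mul, norm_natCast]
        exact mul_le_mul_of_nonneg_left (h.bd a (b - 1) x hη) (by positivity)
      · rw [norm_mul]
        refine mul_le_mul (le_of_eq ?_) (h.bd (a + 1) (b + 1) x hη) (norm_nonneg _) (by positivity)
        simp [abs_of_pos Real.pi_pos])
    ((((ex_mom (b - 1)).const_mul _).const_mul _).add (((ex_mom (b + 1)).const_mul _).const_mul _))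
    (Eventually.of_forall fun η x _ => by
      have d1 : HasDerivAt (fun x : ℝ => (x : ℂ)) 1 x := (hasDerivAt_id x).ofReal_comp
      have d2 := HasDerivAt.comp (h₂ := ep) (h := fun x : ℝ => (x : ℂ) ^ 2 * w η) x
        (hasDerivAt_ep _) ((d1.fun_pow 2).mul_const (w η))
      refine (((d1.fun_pow b).fun_mul d2).const_mul (c η * w η ^ a)).congr_deriv ?_
      simp only [Function.comp_def]
      push_cast
      ring)
  refine key.2.congr_deriv ?_
  rw [integral_add ((h.int a (b - 1) x).const_mul _) ((h.int (a + 1) (b + 1) x).const_mul _),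
    integral_const_mul, integral_const_mul]
  rfl

lemma ExD.schwartz {c w : ℝ → ℂ} {C : ℝ} (h : ExD c w C) :
    ∃ b : SchwartzMap ℝ ℂ, ∀ x : ℝ, b x = ∫ η in Ioi (1 / 2 : ℝ), c η * ep (x ^ 2 * w η) := by
  set S := Submodule.span ℂ (range fun p : ℕ × ℕ => exI c w p.1 p.2) with hS
  have hm : ∀ a b, exI c w a b ∈ S := fun a b => Submodule.subset_span ⟨(a, b), rfl⟩
  suffices h' : ∃ b : SchwartzMap ℝ ℂ, ∀ x, b x = exI c w 0 0 x by
    obtain ⟨b, hb⟩ := h'
    exact ⟨b, fun x => by simp [hb, exI]⟩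
  refine ex_closed (S := (S : Set (ℝ → ℂ))) (fun f hf => ?_) (fun f hf => ?_) (fun f hf => ?_)
    (hm 0 0)
  · induction hf using Submodule.span_induction with
    | mem f hf =>
      obtain ⟨⟨a, b⟩, rfl⟩ := hf
      refine ⟨fun x => (h.deriv a b x).differentiableAt, ?_⟩
      have e : _root_.deriv (exI c w a b)
          = (b : ℂ) • exI c w a (b - 1) + (2 * π * I) • exI c w (a + 1) (b + 1) :=
        funext fun x => (h.deriv a b x).deriv
      simp only [e]
      exact S.add_mem (S.smul_mem _ (hm _ _)) (S.smul_mem _ (hm _ _))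
    | zero => exact ⟨differentiable_const 0, by simp⟩
    | add f g _ _ h1 h2 =>
      refine ⟨h1.1.add h2.1, ?_⟩
      have e : _root_.deriv (f + g) = _root_.deriv f + _root_.deriv g :=
        funext fun x => deriv_add (h1.1 x) (h2.1 x)
      rw [e]
      exact S.add_mem h1.2 h2.2
    | smul a f _ h1 =>
      refine ⟨h1.1.const_smul a, ?_⟩
      have e : _root_.deriv (a • f) = a • _root_.deriv f :=
        funext fun x => deriv_const_smul a (h1.1 x)
      rw [e]
      exact S.smul_mem _ h1.2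
  · induction hf using Submodule.span_induction with
    | mem f hf =>
      obtain ⟨⟨a, b⟩, rfl⟩ := hf
      have e : (fun x : ℝ => x * exI c w a b x) = exI c w a (b + 1) := funext fun x => by
        rw [exI, exI, ← integral_const_mul]
        congr 1
        funext η
        ring
      simp only [e]
      exact hm _ _
    | zero =>
      simp only [Pi.zero_apply, mul_zero]
      exact S.zero_mem
    | add f g _ _ h1 h2 =>
      have e : (fun x : ℝ => x * (f + g) x) = (fun x : ℝ => x * f x) + fun x : ℝ => x * g x :=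
        funext fun x => by simp [mul_add]
      rw [e]
      exact S.add_mem h1 h2
    | smul a f _ h1 =>
      have e : (fun x : ℝ => x * (a • f) x) = a • fun x : ℝ => x * f x :=
        funext fun x => by simp [mul_left_comm]
      rw [e]
      exact S.smul_mem _ h1
  · induction hf using Submodule.span_induction with
    | mem f hf =>
      obtain ⟨⟨a, b⟩, rfl⟩ := hf
      exact ⟨_, fun x => norm_integral_le_of_norm_le ((ex_mom b).const_mul _)
        ((ae_restrict_mem measurableSet_Ioi).mono fun _ hη => h.bd a b x hη)⟩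
    | zero => exact ⟨0, by simp⟩
    | add f g _ _ h1 h2 =>
      obtain ⟨A, hA⟩ := h1
      obtain ⟨B, hB⟩ := h2
      exact ⟨A + B, fun x => (norm_add_le _ _).trans (add_le_add (hA x) (hB x))⟩
    | smul a f _ h1 =>
      obtain ⟨A, hA⟩ := h1
      exact ⟨‖a‖ * A, fun x => (norm_smul_le _ _).trans
        (mul_le_mul_of_nonneg_left (hA x) (norm_nonneg a))⟩

lemma ex_ft {τ : ℂ} (h : 0 < τ.im) (ξ : ℝ) :
    ∫ x : ℝ, ep (x ^ 2 * τ) * ep (-(2 * ξ * x)) = (rt τ)⁻¹ * ep (ξ ^ 2 * (-1 / τ)) := by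
  have h0 := ne_of_im h
  have e := transfer_gauss (w := -I * τ) (u := rt τ) (by simpa using h) (rt_re_pos h.le h0)
    (rt_sq τ) (-2 * π * I * ξ) 0
  have e1 : ∀ x : ℝ, ep (x ^ 2 * τ) * ep (-(2 * ξ * x))
      = cexp (-π * (-I * τ) * x ^ 2 + -2 * π * I * ξ * x + 0) := fun x => by
    rw [← ep_add, ep]
    congr 1
    ring
  simp only [e1]
  rw [e, ep]
  congr 2
  have : (π : ℂ) ≠ 0 := by exact_mod_cast Real.pi_ne_zero
  field_simp
  ring_nf

lemma ExD.fourier {c w : ℝ → ℂ} {C : ℝ} (h : ExD c w C) (ξ : ℝ) :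
    𝓕 (fun x : ℝ => ∫ η in Ioi (1 / 2 : ℝ), c η * ep (x ^ 2 * w η)) ξ
      = ∫ η in Ioi (1 / 2 : ℝ), c η * ((rt (w η))⁻¹ * ep (ξ ^ 2 * (-1 / w η))) := by
  have hw := h.mw
  have hm : AEStronglyMeasurable (Function.uncurry fun (x η : ℝ) =>
      c η * ep (x ^ 2 * w η) * ep (-(2 * ξ * x))) (volume.prod (volume.restrict (Ioi (1 / 2 : ℝ)))) :=
    (h.mc.comp_snd.mul (continuous_ep.measurable.comp (by fun_prop :
      Measurable fun p : ℝ × ℝ => (p.1 : ℂ) ^ 2 * w p.2)).aestronglyMeasurable).mul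
      (continuous_ep.measurable.comp (by fun_prop :
        Measurable fun p : ℝ × ℝ => -(2 * (ξ : ℂ) * p.1))).aestronglyMeasurable
  have hi : Integrable (Function.uncurry fun (x η : ℝ) =>
      c η * ep (x ^ 2 * w η) * ep (-(2 * ξ * x))) (volume.prod (volume.restrict (Ioi (1 / 2 : ℝ)))) := by
    refine Integrable.mono' ((integrable_inv_one_add_sq.const_mul (5 * C)).mul_prod (ex_mom 2)) hm ?_
    have : ∀ᵐ p : ℝ × ℝ ∂(volume.prod (volume.restrict (Ioi (1 / 2 : ℝ)))), p.2 ∈ Ioi (1 / 2 : ℝ) :=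
      Measure.quasiMeasurePreserving_snd.ae (ae_restrict_mem measurableSet_Ioi)
    filter_upwards [this] with p hp
    have hp' : 1 / 2 < p.2 := hp
    have b0 := h.bd 0 0 p.1 hp
    have b2 := h.bd 0 2 p.1 hp
    have e : ep (-(2 * ξ * p.1)) = ep ((-(2 * ξ * p.1) : ℝ) : ℂ) := by push_cast; rfl
    have hC : 0 ≤ C * Real.exp (-p.2) := (norm_nonneg _).trans (h.bc _ hp)
    have q : 1 ≤ (2 * p.2) ^ 2 := one_le_pow₀ (by linarith)
    simp only [pow_zero, mul_one, one_mul, Nat.factorial_zero, Nat.factorial_two, Nat.cast_one,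
      Nat.cast_ofNat] at b0 b2
    rw [mul_left_comm, norm_mul, norm_pow, norm_real, Real.norm_eq_abs, sq_abs] at b2
    rw [Function.uncurry_apply_pair, norm_mul, e, norm_ep_real, mul_one, mul_right_comm,
      ← div_eq_mul_inv, le_div_iff₀ (by positivity)]
    nlinarith [mul_le_mul_of_nonneg_left q hC]
  rw [planch_eq]
  simp only [← integral_mul_const]
  rw [integral_integral_swap hi]
  refine setIntegral_congr_fun measurableSet_Ioi fun η hη => ?_
  have hη' : 1 / 2 < η := hη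
  simp only [mul_assoc (c η)]
  rw [integral_const_mul, ex_ft (lt_of_lt_of_le (by positivity) (h.bw η hη).2)]

/-! Existence of the interpolation basis (Radchenko-Viazovska): integrate weakly holomorphic forms
of weight `3/2` against Gaussians over the unit semicircle. -/

/-- an invariant function with a simple pole at the cusp at infinity -/
def exU (τ : ℂ) : ℂ := th3 τ ^ 8 / (th2 τ ^ 4 * th4 τ ^ 4)

/-- forms of weight `3/2` -/
def exG (k : ℕ) (τ : ℂ) : ℂ := th3 τ ^ 3 * exU τ ^ k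

lemma ex_th4_ne {τ : ℂ} (h : 0 < τ.im) : th4 τ ≠ 0 := by
  rw [← th3_add_one]; exact th3_ne (by simpa using h)

lemma exG_diff (k : ℕ) {τ : ℂ} (h : 0 < τ.im) : DifferentiableAt ℂ (exG k) τ :=
  ((th3_diff h).pow 3).mul ((((th3_diff h).pow 8).div (((th2_diff h).pow 4).mul ((th4_diff h).pow 4))
    (mul_ne_zero (pow_ne_zero 4 (th2_ne h)) (pow_ne_zero 4 (ex_th4_ne h)))).pow k)

lemma exG_T (k : ℕ) (τ : ℂ) : exG k (τ + 2) = exG k τ := by
  have e : τ + 2 = τ + 1 + 1 := by ring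
  have e2 : (ep (1 / 4) * (ep (1 / 4) * th2 τ)) ^ 4 = th2 τ ^ 4 := by
    rw [mul_pow, mul_pow, theta_ep4]; ring
  simp only [exG, exU, e, th3_add_one, th4_add_one, th2_add_one, e2]

lemma exG_S (k : ℕ) {τ : ℂ} (h : 0 < τ.im) : exG k (-1 / τ) = rt τ ^ 3 * exG k τ := by
  have r := rt_ne (ne_of_im h)
  have e : exU (-1 / τ) = exU τ := by
    have := th2_ne h
    have := ex_th4_ne h
    rw [exU, exU, th3_S h, th2_S h, th4_S h]
    field_simp
  rw [exG, exG, e, th3_S h]
  ring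

lemma exG_cusp (k : ℕ) {z : ℂ} (h : 1 / 2 ≤ z.im) :
    ‖exG k (wz z) / z ^ 2‖ ≤ 54 * (21 ^ 8) ^ k * Real.exp (-z.im) := by
  have hz : 0 < z.im := by linarith
  have r := rt_ne (ne_of_im hz)
  have n1 : 1 / 2 ≤ ‖z‖ := h.trans (im_le_norm z)
  obtain ⟨b3, q⟩ := theta_th3_bd h
  have b4 := theta_th4_bd h
  have l : ∀ a : ℂ, ‖a - 1‖ ≤ 3 * Real.exp (-π * z.im) → 1 / 7 ≤ ‖a‖ := fun a ha => by
    have := norm_sub_norm_le (1 : ℂ) a
    rw [norm_sub_rev, norm_one] at this
    linarith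
  have l3 := l _ b3
  have l4 := l _ b4
  have b2 := (th2_bd h).2
  have e0 : Real.exp (-π * z.im / 4) ≤ 1 :=
    Real.exp_le_one_iff.2 (by nlinarith [Real.pi_pos])
  have e1 : exU (wz z) = -(th2 z ^ 8 / (th4 z ^ 4 * th3 z ^ 4)) := by
    have := th3_ne hz
    have := ex_th4_ne hz
    rw [exU, th3_wz hz, theta_wz, th2_add_one, th4_add_one, th2_S hz, th3_S hz, mul_pow (ep _),
      theta_ep4]
    field_simp
  have u1 : ‖exU (wz z)‖ ≤ 21 ^ 8 := by
    rw [e1, norm_neg, norm_div, norm_mul, norm_pow, norm_pow, norm_pow,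
      div_le_iff₀ (by positivity)]
    calc ‖th2 z‖ ^ 8 ≤ 3 ^ 8 := by gcongr; linarith
      _ = 21 ^ 8 * ((1 / 7) ^ 4 * (1 / 7) ^ 4) := by norm_num
      _ ≤ _ := by gcongr
  have u2 : √‖z‖ ^ 3 / ‖z‖ ^ 2 ≤ 2 := by
    have s1 : 1 / 2 ≤ √‖z‖ := Real.le_sqrt_of_sq_le (by linarith)
    have s2 := Real.sq_sqrt (norm_nonneg z)
    rw [div_le_iff₀ (by positivity), ← s2, Real.sqrt_sq (by positivity)]
    nlinarith [pow_pos (show 0 < √‖z‖ by linarith) 3]
  have u3 : ‖th2 z‖ ^ 3 ≤ 27 * Real.exp (-z.im) := by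
    calc _ ≤ (3 * Real.exp (-π * z.im / 4)) ^ 3 := by gcongr
      _ = 27 * Real.exp (3 * (-π * z.im / 4)) := by
          rw [mul_pow, ← Real.exp_nat_mul]; norm_num
      _ ≤ _ := by gcongr; nlinarith [Real.pi_gt_three]
  rw [exG, th3_wz hz, norm_div, norm_mul, norm_pow, norm_pow, norm_pow, norm_mul, norm_rt]
  calc _ = √‖z‖ ^ 3 / ‖z‖ ^ 2 * ‖th2 z‖ ^ 3 * ‖exU (wz z)‖ ^ k := by ring
    _ ≤ 2 * (27 * Real.exp (-z.im)) * (21 ^ 8) ^ k := by gcongr
    _ = _ := by ring

lemma ex_top (k j : ℕ) : Tendsto (fun τ : ℂ => exG k τ * ep ((k + j : ℕ) * τ)) (comap im atTop)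
    (𝓝 ((1 / 16) ^ k * 0 ^ j)) := by
  have hE : Tendsto (fun τ : ℂ => Real.exp (-π * τ.im)) (comap im atTop) (𝓝 0) :=
    Real.tendsto_exp_atBot.comp (tendsto_comap.const_mul_atTop_of_neg (by simp [Real.pi_pos]))
  have hv : ∀ᶠ τ : ℂ in comap im atTop, 1 / 2 ≤ τ.im := tendsto_comap.eventually_ge_atTop _
  have t3 : Tendsto th3 (comap im atTop) (𝓝 1) := tendsto_iff_norm_sub_tendsto_zero.2
    (squeeze_zero' (Eventually.of_forall fun _ => norm_nonneg _)
      (hv.mono fun τ h => (theta_th3_bd h).1) (by simpa using hE.const_mul 3))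
  have t4 : Tendsto th4 (comap im atTop) (𝓝 1) := tendsto_iff_norm_sub_tendsto_zero.2
    (squeeze_zero' (Eventually.of_forall fun _ => norm_nonneg _)
      (hv.mono fun τ h => theta_th4_bd h) (by simpa using hE.const_mul 3))
  have t2 : Tendsto (fun z : ℂ => jacobiTheta₂ (z / 2) z) (comap im atTop) (𝓝 2) :=
    tendsto_iff_norm_sub_tendsto_zero.2 (squeeze_zero' (Eventually.of_forall fun _ => norm_nonneg _)
      (hv.mono fun τ h => (theta_A_bd h).1) (by simpa using (hE.pow 2).const_mul 3))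
  have t0 : Tendsto ep (comap im atTop) (𝓝 0) :=
    tendsto_zero_iff_norm_tendsto_zero.2 (by simpa only [norm_ep] using hE)
  have h := ((t3.pow 3).mul (((t3.pow 8).div ((t2.pow 4).mul (t4.pow 4)) (by norm_num)).pow k)).mul
    (t0.pow j)
  have e : ((1 : ℂ) ^ 3 * (1 ^ 8 / (2 ^ 4 * 1 ^ 4)) ^ k * 0 ^ j) = (1 / 16) ^ k * 0 ^ j := by norm_num
  rw [e] at h
  refine h.congr fun τ => ?_
  have e4 : ep (τ / 4) ^ 4 = ep τ := by
    rw [← ep_nat_mul]; congr 1; push_cast; ring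
  have e5 := ep_ne τ
  have e6 : exU τ * ep τ = th3 τ ^ 8 / (jacobiTheta₂ (τ / 2) τ ^ 4 * th4 τ ^ 4) := by
    rw [exU, th2, mul_pow, e4, mul_assoc, ← div_div, div_mul_eq_mul_div, div_mul_eq_mul_div,
      mul_div_cancel_right₀ _ e5]
  simp only [Pi.div_apply]
  rw [exG, ep_nat_mul, pow_add, ← e6, mul_pow]
  ring

lemma ex_const {h H : ℂ → ℂ} {L : ℂ} (hH : ∀ z : ℂ, 0 < z.im → HasDerivAt H (h z) z)
    (hT : ∀ τ, h (τ + 2) = h τ) (hL : Tendsto h (comap im atTop) (𝓝 L)) : H (I + 2) - H I = 2 * L := by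
  have hD : ∀ z : ℂ, 0 < z.im → HasDerivAt (fun z => H (z + 2) - H z) 0 z := fun z hz => by
    have := ((hH (z + 2) (by simpa using hz)).comp_add_const z 2).fun_sub (hH z hz)
    rwa [hT, sub_self] at this
  obtain ⟨c, hc⟩ := haupt_Hopen.exists_is_const_of_deriv_eq_zero haupt_Hconn
    (fun z hz => (hD z hz).differentiableAt.differentiableWithinAt) fun z hz => (hD z hz).deriv
  rw [hc I (by simp), ← sub_eq_zero, ← norm_le_zero_iff]
  refine le_of_forall_pos_le_add fun ε hε => ?_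
  obtain ⟨T, hT'⟩ := (eventually_atTop.1 (eventually_comap.1
    ((tendsto_iff_norm_sub_tendsto_zero.1 hL).eventually_le_const (half_pos hε))))
  set y : ℝ := max T 1 with hy
  have y0 : 0 < y := lt_of_lt_of_le one_pos (le_max_right _ _)
  have key := norm_image_sub_le_of_norm_deriv_le_segment' (a := 0) (b := 2) (C := ε / 2)
    (f := fun t : ℝ => H (y * I + t) - L * t) (f' := fun t : ℝ => h (y * I + t) - L)
    (fun t _ => by
      have d1 : HasDerivAt (fun t : ℝ => (t : ℂ)) 1 t := (hasDerivAt_id t).ofReal_comp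
      have d2 := HasDerivAt.comp (h₂ := H) (h := fun t : ℝ => y * I + (t : ℂ)) t
        (hH _ (by simpa using y0)) (d1.const_add _)
      exact ((d2.fun_sub (d1.const_mul L)).congr_deriv (by ring)).hasDerivWithinAt)
    (fun t _ => hT' y (le_max_left _ _) _ (by simp)) 2 (right_mem_Icc.2 zero_le_two)
  have e := hc (y * I) (by simpa using y0)
  simp only [ofReal_ofNat, ofReal_zero, add_zero, mul_zero, sub_zero] at key e
  rw [← e, show H (y * I + 2) - H (y * I) - 2 * L = H (y * I + 2) - L * 2 - H (y * I) by ring]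
  linarith

lemma ex_val {h H : ℂ → ℂ} {C : ℝ} (hH : ∀ z : ℂ, 0 < z.im → HasDerivAt H (h z) z)
    (hb : ∀ z : ℂ, 1 / 2 ≤ z.im → ‖h (wz z) / z ^ 2‖ ≤ C * Real.exp (-z.im))
    (hi : IntegrableOn (fun η : ℝ => (h (wz (ln η)) / ln η ^ 2
      - h (wz (ln η - 1)) / (ln η - 1) ^ 2) * I) (Ioi (1 / 2))) :
    ∫ η in Ioi (1 / 2 : ℝ), (h (wz (ln η)) / ln η ^ 2 - h (wz (ln η - 1)) / (ln η - 1) ^ 2) * I
      = H (I + 2) - H I := by
  have hK : ∀ z : ℂ, 0 < z.im → HasDerivAt (fun z => H (wz z)) (h (wz z) / z ^ 2) z := by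
    intro z hz
    have d : HasDerivAt wz (1 / z ^ 2) z := by
      have := ((hasDerivAt_inv (ne_of_im hz)).const_sub 1)
      simp only [neg_neg, ← one_div] at this
      exact this
    exact ((hH _ (im_wz_pos hz)).comp z d).congr_deriv (by ring)
  have dl : ∀ η : ℝ, HasDerivAt ln I η := fun η => by
    have d1 : HasDerivAt (fun t : ℝ => (t : ℂ)) 1 η := (hasDerivAt_id η).ofReal_comp
    exact ((d1.mul_const I).const_add (1 / 2 : ℂ)).congr_deriv (one_mul I)
  have lim : Tendsto (fun η : ℝ => H (wz (ln η)) - H (wz (ln η - 1))) atTop (𝓝 0) := by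
    refine squeeze_zero_norm' ((eventually_ge_atTop (1 / 2 : ℝ)).mono fun η hη => ?_)
      (by simpa using Real.tendsto_exp_neg_atTop_nhds_zero.const_mul C)
    have key := norm_image_sub_le_of_norm_deriv_le_segment_01' (C := C * Real.exp (-η))
      (f := fun t : ℝ => H (wz (ln η - 1 + t)))
      (f' := fun t : ℝ => h (wz (ln η - 1 + t)) / (ln η - 1 + t) ^ 2)
      (fun t _ => by
        have d1 : HasDerivAt (fun t : ℝ => (t : ℂ)) 1 t := (hasDerivAt_id t).ofReal_comp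
        have d2 := HasDerivAt.comp (h₂ := fun z => H (wz z)) (h := fun t : ℝ => ln η - 1 + (t : ℂ)) t
          (hK _ (by simp; linarith)) (d1.const_add _)
        exact (d2.congr_deriv (by ring)).hasDerivWithinAt)
      (fun t _ => by simpa using hb (ln η - 1 + t) (by simpa using hη))
    simpa using key
  rw [integral_Ioi_of_hasDerivAt_of_tendsto' (fun η hη => ?_) hi lim]
  · have e1 : wz (ln (1 / 2)) = I := by
      have : ln (1 / 2) * (1 - I) = 1 := by
        rw [ln]; push_cast; linear_combination (-1 / 2 : ℂ) * I_mul_I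
      rw [wz, ← eq_div_of_mul_eq (ne_of_im (by simp)) ((mul_comm _ _).trans this)]
      ring
    have e2 : wz (ln (1 / 2) - 1) = I + 2 := by
      have : (ln (1 / 2) - 1) * (-1 - I) = 1 := by
        rw [ln]; push_cast; linear_combination (-1 / 2 : ℂ) * I_mul_I
      rw [wz, ← eq_div_of_mul_eq (ne_of_im (by simp)) ((mul_comm _ _).trans this)]
      ring
    rw [e1, e2]
    ring
  · have h0 : 0 < η := lt_of_lt_of_le (by norm_num) (mem_Ici.1 hη)
    have d1 := HasDerivAt.comp (h₂ := fun z => H (wz z)) (h := ln) η (hK _ (by simpa using h0)) (dl η)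
    have d2 := HasDerivAt.comp (h₂ := fun z => H (wz z)) (h := fun η => ln η - 1) η
      (hK _ (by simpa using h0)) ((dl η).sub_const 1)
    exact (d1.fun_sub d2).congr_deriv (by ring)

lemma ex_data (k : ℕ) : ExD (fun η => exG k (wz (ln η)) / ln η ^ 2 * I) (fun η => wz (ln η))
    (54 * (21 ^ 8) ^ k) := by
  refine ⟨ContinuousOn.aestronglyMeasurable (fun η hη => ?_) measurableSet_Ioi, ?_, fun η hη => ?_,
    fun η hη => ?_⟩
  · have h0 : 0 < (ln η).im := by
      have : 1 / 2 < η := hη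
      simp only [ln_im]; linarith
    have c0 : Continuous ln := by unfold ln; fun_prop
    have c1 : ContinuousAt wz (ln η) := by
      unfold wz
      exact continuousAt_const.sub (continuousAt_const.div continuousAt_id (ne_of_im h0))
    exact ((((exG_diff k (im_wz_pos h0)).continuousAt.comp (f := fun η => wz (ln η))
      (c1.comp c0.continuousAt)).div (c0.pow 2).continuousAt
        (pow_ne_zero 2 (ne_of_im h0))).mul continuousAt_const).continuousWithinAt
  · unfold wz ln; fun_prop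
  · rw [norm_mul, norm_I, mul_one]
    simpa using exG_cusp k (z := ln η) (by simpa using hη.le)
  · have h0 : 0 < η := by linarith
    have n : normSq (ln η) = 1 / 4 + η ^ 2 := by
      rw [normSq_apply, ln_re, ln_im]; ring
    constructor
    · have e : wz (ln η) = (ln η - 1) / ln η := by
        rw [wz, sub_div, div_self (ne_of_im (by simpa using h0))]
      have n' : normSq (ln η - 1) = 1 / 4 + η ^ 2 := by
        rw [normSq_apply, sub_re, sub_im, ln_re, ln_im, one_re, one_im]; ring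
      rw [e, norm_div, Complex.norm_def, Complex.norm_def, n, n', div_self (by positivity)]
    · rw [im_wz, n, ln_im, div_le_div_iff₀ (by positivity) (by positivity)]
      nlinarith

lemma ex_k (k : ℕ) : ∃ b : SchwartzMap ℝ ℂ, (∀ r : ℝ, b (-r) = b r) ∧
    (∀ ξ : ℝ, 𝓕 (b : ℝ → ℂ) ξ = b ξ) ∧ ∀ j : ℕ, b (√(k + j : ℕ)) = 2 * ((1 / 16) ^ k * 0 ^ j) := by
  have D := ex_data k
  obtain ⟨b, hb⟩ := D.schwartz
  have hb' : (b : ℝ → ℂ) = _ := funext hb
  have hF : ∀ ξ : ℝ, (𝓕 b : SchwartzMap ℝ ℂ) ξ = _ := fun ξ => by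
    rw [SchwartzMap.fourier_coe, hb', D.fourier]
  have ev : ∀ r : ℝ, b (-r) = b r := fun r => by simp [hb]
  have ev' : ∀ r : ℝ, (𝓕 b : SchwartzMap ℝ ℂ) (-r) = (𝓕 b : SchwartzMap ℝ ℂ) r := fun r => by
    simp [hF]
  refine ⟨b + 𝓕 b, fun r => by simp only [add_apply, ev, ev'], fun ξ => ?_, fun j => ?_⟩
  · have e0 : 𝓕⁻ (𝓕 b : SchwartzMap ℝ ℂ) = b := FourierTransform.fourierInv_fourier_eq b
    have e := congrArg (fun f : SchwartzMap ℝ ℂ => f (-ξ)) e0
    simp only [SchwartzMap.fourierInv_coe, Real.fourierInv_eq_fourier_neg, neg_neg] at e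
    rw [← SchwartzMap.fourier_coe, FourierTransform.fourier_add, add_apply,
      add_apply, SchwartzMap.fourier_coe (𝓕 b), e, ev, add_comm]
  · set m : ℕ := k + j with hm
    have sq : ((√m : ℝ) : ℂ) ^ 2 = m := by
      rw [← ofReal_pow, Real.sq_sqrt (Nat.cast_nonneg m), ofReal_natCast]
    obtain ⟨H, hH⟩ := exists_prim (f := fun τ => exG k τ * ep (m * τ)) fun z hz =>
      (exG_diff k hz).mul (DifferentiableAt.comp (g := ep) z (differentiable_ep _) (by fun_prop))
    have hT : ∀ τ : ℂ, exG k (τ + 2) * ep (m * (τ + 2)) = exG k τ * ep (m * τ) := fun τ => by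
      have := ep_two_int m
      push_cast at this
      rw [exG_T, mul_add, ep_add, mul_comm (m : ℂ) 2, this, mul_one]
    have hbd : ∀ z : ℂ, 1 / 2 ≤ z.im → ‖exG k (wz z) * ep (m * wz z) / z ^ 2‖
        ≤ 54 * (21 ^ 8) ^ k * Real.exp (-z.im) := fun z hz => by
      have p := im_wz_pos (show 0 < z.im by linarith)
      rw [mul_div_right_comm, norm_mul]
      refine (mul_le_of_le_one_right (norm_nonneg _) ?_).trans (exG_cusp k hz)
      rw [ep_nat_mul, norm_pow, norm_ep]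
      exact pow_le_one₀ (Real.exp_pos _).le (Real.exp_le_one_iff.2 (by nlinarith [Real.pi_pos]))
    have e2 : ∀ η ∈ Ioi (1 / 2 : ℝ), exG k (wz (ln η)) / ln η ^ 2 * I
        * ((rt (wz (ln η)))⁻¹ * ep (m * (-1 / wz (ln η))))
        = -(exG k (wz (ln η - 1)) * ep (m * wz (ln η - 1)) / (ln η - 1) ^ 2 * I) := by
      intro η hη
      have h0 : 0 < (ln η).im := by
        have : 1 / 2 < η := hη
        simp only [ln_im]; linarith
      have z0 := ne_of_im h0
      have z1 : ln η - 1 ≠ 0 := ne_of_im (by simpa using h0)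
      have p := im_wz_pos h0
      have r := rt_ne (ne_of_im p)
      have a1 : wz (ln η - 1) = -1 / wz (ln η) + 2 := by
        rw [wz, wz]; field_simp; ring
      have a2 : rt (wz (ln η)) ^ 4 * ln η ^ 2 = -(ln η - 1) ^ 2 := by
        rw [show rt (wz (ln η)) ^ 4 = (rt (wz (ln η)) ^ 2) ^ 2 by ring, rt_sq, mul_pow, neg_sq, I_sq, wz]
        field_simp
      rw [a1, hT, exG_S k p]
      generalize ep (m * (-1 / wz (ln η))) = E
      field_simp
      linear_combination (exG k (wz (ln η)) * E) * a2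
    have i1 := D.int 0 0 (√m)
    simp only [pow_zero, mul_one, one_mul, sq] at i1
    have i2 : IntegrableOn (fun η : ℝ => exG k (wz (ln η)) / ln η ^ 2 * I
        * ((rt (wz (ln η)))⁻¹ * ep (m * (-1 / wz (ln η))))) (Ioi (1 / 2)) := by
      refine Integrable.mono' ((ex_mom 0).const_mul (54 * (21 ^ 8) ^ k)) (D.mc.mul ?_)
        ((ae_restrict_mem measurableSet_Ioi).mono fun η hη => ?_)
      · have := D.mw
        exact (((this.const_mul (-I)).pow_const (1 / 2 : ℂ)).inv.mul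
          (continuous_ep.measurable.comp (by fun_prop))).aestronglyMeasurable
      · have h1 : 1 / 2 < η := hη
        rw [e2 η hη, norm_neg, norm_mul, norm_I]
        simpa using hbd (ln η - 1) (by simpa using h1.le)
    have e3 : EqOn (fun η : ℝ => exG k (wz (ln η)) / ln η ^ 2 * I * ep (m * wz (ln η))
        + exG k (wz (ln η)) / ln η ^ 2 * I * ((rt (wz (ln η)))⁻¹ * ep (m * (-1 / wz (ln η)))))
        (fun η : ℝ => (exG k (wz (ln η)) * ep (m * wz (ln η)) / ln η ^ 2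
          - exG k (wz (ln η - 1)) * ep (m * wz (ln η - 1)) / (ln η - 1) ^ 2) * I) (Ioi (1 / 2)) :=
      fun η hη => by
        simp only [e2 η hη]
        ring
    rw [add_apply, hb, hF, sq, ← integral_add i1 i2,
      setIntegral_congr_fun measurableSet_Ioi e3,
      ex_val hH hbd ((i1.add i2).congr_fun e3 measurableSet_Ioi), ex_const hH hT (ex_top k j)]

theorem ex_b (n : ℕ) : ∃ b : SchwartzMap ℝ ℂ, (∀ r : ℝ, b (-r) = b r) ∧
    (∀ ξ : ℝ, 𝓕 (b : ℝ → ℂ) ξ = b ξ) ∧ ∀ m : ℕ, b (√m) = if m = n then 1 else 0 := by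
  induction n using Nat.strong_induction_on with
  | _ n ih =>
  choose! β h1 h2 h3 using ih
  obtain ⟨b, k1, k2, k3⟩ := ex_k n
  have h2' : ∀ j < n, 𝓕 (β j) = β j := fun j hj => SchwartzMap.ext (h2 j hj)
  have k2' : 𝓕 b = b := SchwartzMap.ext k2
  refine ⟨((16 : ℂ) ^ n / 2) • (b - ∑ j ∈ Finset.range n, b (√j) • β j), fun r => ?_, fun ξ => ?_,
    fun m => ?_⟩
  · simp only [smul_apply, sub_apply, sum_apply, k1]
    rw [Finset.sum_congr rfl fun j hj => by rw [h1 j (Finset.mem_range.1 hj)]]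
  · rw [← SchwartzMap.fourier_coe, ← SchwartzMap.fourierTransformCLM_apply ℂ, map_smul, map_sub,
      map_sum, SchwartzMap.fourierTransformCLM_apply, k2', Finset.sum_congr rfl fun j hj => by
        rw [map_smul, SchwartzMap.fourierTransformCLM_apply, h2' j (Finset.mem_range.1 hj)]]
  · simp only [smul_apply, sub_apply, sum_apply, smul_eq_mul]
    rw [Finset.sum_congr rfl fun j hj => by rw [h3 j (Finset.mem_range.1 hj)]]
    simp only [mul_ite, mul_one, mul_zero, Finset.sum_ite_eq, Finset.mem_range]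
    rcases lt_or_ge m n with h | h
    · rw [if_pos h, if_neg h.ne, sub_self, mul_zero]
    · obtain ⟨j, rfl⟩ := Nat.exists_eq_add_of_le h
      rw [if_neg (not_lt.2 h), sub_zero, k3]
      rcases j with _ | j
      · simp
        field_simp
      · simp

lemma ex_four (g : ℝ → ℂ) (ξ : ℝ) : 𝓕 g ξ = ∫ x : ℝ, g x * cexp (-2 * π * I * ξ * x) := by
  rw [planch_eq]
  congr 1
  funext x
  rw [ep]
  congr 2
  ring

lemma ex_uniq {n : ℕ} (hn : 1 ≤ n) {b g : SchwartzMap ℝ ℂ} (b1 : ∀ r : ℝ, b (-r) = b r)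
    (b2 : ∀ ξ : ℝ, 𝓕 (b : ℝ → ℂ) ξ = b ξ) (b3 : ∀ m : ℕ, b (√m) = if m = n then 1 else 0)
    (g1 : ∀ r : ℝ, g (-r) = g r) (g2 : ∀ ξ : ℝ, 𝓕 (g : ℝ → ℂ) ξ = g ξ)
    (g3 : ∀ m : ℕ, g (√m) = if m = n then 1 else 0) (x : ℝ) : g x = b x := by
  have h := (val_eq hn g g1 g2 g3 (sq_nonneg x)).trans (val_eq hn b b1 b2 b3 (sq_nonneg x)).symm
  rw [Real.sqrt_sq_eq_abs] at h
  rcases abs_choice x with e | e <;> rw [e] at h
  · exact h
  · rwa [g1, b1] at h

theorem ex_real {n : ℕ} (hn : 1 ≤ n) : ∃ (b : SchwartzMap ℝ ℝ) (B : SchwartzMap ℝ ℂ),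
    (∀ x, B x = b x) ∧ (∀ r : ℝ, B (-r) = B r) ∧ (∀ ξ : ℝ, 𝓕 (B : ℝ → ℂ) ξ = B ξ) ∧
    (∀ m : ℕ, B (√m) = if m = n then 1 else 0) ∧
    ∀ g : SchwartzMap ℝ ℝ, g = b ↔ (∀ x : ℝ, g (-x) = g x) ∧
      (∀ ξ : ℝ, ∫ x : ℝ, (g x : ℂ) * cexp (-2 * π * I * ξ * x) = (g ξ : ℂ)) ∧
      (∀ m : ℕ, g (√m) = if m = n then 1 else 0) := by
  obtain ⟨B, h1, h2, h3⟩ := ex_b n
  have hc : ∀ x, (starRingEnd ℂ) (B x) = B x := fun x => by
    refine ex_uniq (g := B.postcompCLM (conjCLE : ℂ →L[ℝ] ℂ)) hn h1 h2 h3 (fun r => by simp [h1])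
      (fun ξ => ?_) (fun m => by simp [h3, apply_ite]) x
    have e := h2 (-ξ)
    rw [h1, ex_four] at e
    rw [ex_four, SchwartzMap.postcompCLM_apply, ← e]
    simp only [SchwartzMap.postcompCLM_apply, ContinuousLinearEquiv.coe_coe, conjCLE_apply]
    rw [← integral_conj]
    congr 1
    funext y
    rw [map_mul, ← exp_conj]
    congr 2
    simp [map_ofNat]
  have hB : ∀ x, B x = (B.postcompCLM reCLM x : ℝ) := fun x => by
    simpa using (conj_eq_iff_re.1 (hc x)).symm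
  refine ⟨B.postcompCLM reCLM, B, hB, h1, h2, h3, fun g => ⟨fun hg => ?_, fun ⟨g1, g2, g3⟩ => ?_⟩⟩
  · refine ⟨fun x => by simp [hg, h1], fun ξ => ?_, fun m => by simp [hg, h3, apply_ite]⟩
    simp only [hg, ← hB]
    rw [← ex_four, h2]
  · refine SchwartzMap.ext fun x => ofReal_injective ?_
    rw [← hB]
    exact ex_uniq (g := g.postcompCLM ofRealCLM) hn h1 h2 h3 (fun r => by simp [g1])
      (fun ξ => by rw [ex_four]; simpa using g2 ξ) (fun m => by simp [g3, apply_ite]) x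

end

end Pool.Agent.MP_9f080f_an
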