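import Pool.Agent.MP_9f080f_an.Mg.ShOsc
import Pool.Agent.MP_9f080f_an.Mg.MainAsmA
import Pool.Agent.MP_9f080f_an.Mg.MainAsm
import Pool.Agent.MP_9f080f_an.Mg.ShMT
import Pool.Agent.MP_9f080f_an.Mg.G_AB

namespace Pool.Agent.MP_9f080f_an
open Complex MeasureTheory Set Filter Topology Metric
open scoped Real FourierTransform

noncomputable section

/-! First derivative tests used for the lower bound. -/

lemma lo_ibp {a b m D : ℝ} (hab : a ≤ b) (α φ θ ρ ρ' : ℝ → ℝ)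
    (hθ : ∀ t ∈ Icc a b, HasDerivAt θ (φ t) t) (hφ : ContinuousOn φ (Icc a b))
    (hρ : ∀ t ∈ Icc a b, HasDerivAt ρ (ρ' t) t) (hρ' : ContinuousOn ρ' (Icc a b))
    (he : ∀ t ∈ Icc a b, ρ t * φ t = α t)
    (hm : ∀ t ∈ Icc a b, |ρ t| ≤ m) (hD : ∀ t ∈ Icc a b, |ρ' t| ≤ D) :
    ‖∫ t in a..b, (α t : ℂ) * ep (θ t)‖ ≤ (2 * m + D * (b - a)) / 3 := by
  have hθc : ContinuousOn θ (Icc a b) := fun t ht => (hθ t ht).continuousAt.continuousWithinAt
  have hE : ∀ t ∈ Icc a b, HasDerivAt (fun t : ℝ => ep (θ t)) (π * I * ep (θ t) * φ t) t :=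
    fun t ht => HasDerivAt.comp (h₂ := ep) (h := fun t : ℝ => (θ t : ℂ)) t (hasDerivAt_ep (θ t))
      (hθ t ht).ofReal_comp
  have hE' : ContinuousOn (fun t : ℝ => π * I * ep (θ t) * φ t) (Icc a b) :=
    (continuousOn_const.mul (continuous_ep.comp_continuousOn
      (continuous_ofReal.comp_continuousOn hθc))).mul (continuous_ofReal.comp_continuousOn hφ)
  have h := shosc_ibp hab ρ ρ' (fun t => D * t) (fun _ => D) (fun t : ℝ => ep (θ t))
    (fun t : ℝ => π * I * ep (θ t) * φ t) hρ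
    (fun t _ => by simpa using (hasDerivAt_id t).const_mul D) hE hρ' continuousOn_const hE' hD
    (fun t _ => (norm_ep_real _).le)
  have e : ∫ t in a..b, (ρ t : ℂ) * (π * I * ep (θ t) * φ t)
      = π * I * ∫ t in a..b, (α t : ℂ) * ep (θ t) := by
    rw [← intervalIntegral.integral_const_mul]
    refine intervalIntegral.integral_congr fun t ht => ?_
    rw [uIcc_of_le hab] at ht
    simp only [← he t ht]
    push_cast
    ring
  rw [e, norm_mul, norm_mul, norm_I, norm_real, Real.norm_of_nonneg Real.pi_pos.le] at h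
  have h1 := hm a ⟨le_rfl, hab⟩
  have h2 := hm b ⟨hab, le_rfl⟩
  have h3 := norm_nonneg (∫ t in a..b, (α t : ℂ) * ep (θ t))
  rw [le_div_iff₀ (by norm_num)]
  nlinarith [Real.pi_gt_three]

lemma lo_pair {a b N A₁ B₁ A₂ B₂ δ μ : ℝ} (hab : a ≤ b) (hN : 0 < N) (hδ : 0 < δ) (hμ : 0 ≤ μ)
    (θ : ℝ → ℝ) (h1 : ∀ t ∈ Icc a b, 0 < A₁ + B₁ * t) (h2 : ∀ t ∈ Icc a b, 0 < A₂ + B₂ * t)
    (hθ : ∀ t ∈ Icc a b, HasDerivAt θ (N / (A₂ + B₂ * t) ^ 2 - N / (A₁ + B₁ * t) ^ 2) t)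
    (hd : ∀ t ∈ Icc a b, δ ≤ |A₁ + B₁ * t - (A₂ + B₂ * t)|)
    (m1 : ∀ t ∈ Icc a b, |B₁| ≤ μ * (A₁ + B₁ * t)) (m2 : ∀ t ∈ Icc a b, |B₂| ≤ μ * (A₂ + B₂ * t))
    (m3 : ∀ t ∈ Icc a b, |B₁ - B₂| ≤ μ * |A₁ + B₁ * t - (A₂ + B₂ * t)|) :
    ‖∫ t in a..b, ((((A₁ + B₁ * t) * (A₂ + B₂ * t)) ^ (-3 / 2 : ℝ) : ℝ) : ℂ) * ep (θ t)‖
      ≤ (1 + μ * (b - a)) / (N * δ) := by
  set L₁ : ℝ → ℝ := fun t => A₁ + B₁ * t with hL₁
  set L₂ : ℝ → ℝ := fun t => A₂ + B₂ * t with hL₂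
  have d1 : ∀ t, HasDerivAt L₁ B₁ t := fun t => by
    simpa [hL₁] using ((hasDerivAt_id t).const_mul B₁).const_add A₁
  have d2 : ∀ t, HasDerivAt L₂ B₂ t := fun t => by
    simpa [hL₂] using ((hasDerivAt_id t).const_mul B₂).const_add A₂
  have c1 : Continuous L₁ := by rw [hL₁]; fun_prop
  have c2 : Continuous L₂ := by rw [hL₂]; fun_prop
  have hΔ : ∀ t ∈ Icc a b, δ * (L₁ t + L₂ t) ≤ |L₁ t ^ 2 - L₂ t ^ 2| := fun t ht => by
    have p1 : 0 < L₁ t := h1 t ht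
    have p2 : 0 < L₂ t := h2 t ht
    rw [show L₁ t ^ 2 - L₂ t ^ 2 = (L₁ t - L₂ t) * (L₁ t + L₂ t) by ring, abs_mul,
      abs_of_pos (add_pos p1 p2)]
    exact mul_le_mul_of_nonneg_right (hd t ht) (add_pos p1 p2).le
  have hΔ0 : ∀ t ∈ Icc a b, L₁ t ^ 2 - L₂ t ^ 2 ≠ 0 := fun t ht => by
    have p1 : 0 < L₁ t := h1 t ht
    have p2 : 0 < L₂ t := h2 t ht
    exact abs_pos.1 ((mul_pos hδ (add_pos p1 p2)).trans_le (hΔ t ht))
  have hP : ∀ t ∈ Icc a b, 0 < L₁ t * L₂ t := fun t ht => mul_pos (h1 t ht) (h2 t ht)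
  have hm : ∀ t ∈ Icc a b, √(L₁ t * L₂ t) / (N * |L₁ t ^ 2 - L₂ t ^ 2|) ≤ 1 / (2 * (N * δ)) := by
    intro t ht
    have p1 : 0 < L₁ t := h1 t ht
    have p2 : 0 < L₂ t := h2 t ht
    have s : √(L₁ t * L₂ t) ≤ (L₁ t + L₂ t) / 2 :=
      Real.sqrt_le_iff.2 ⟨by positivity, by nlinarith [sq_nonneg (L₁ t - L₂ t)]⟩
    have := abs_pos.2 (hΔ0 t ht)
    rw [div_le_div_iff₀ (by positivity) (by positivity)]
    have q := mul_le_mul_of_nonneg_left (hΔ t ht) hN.le
    have q2 := mul_le_mul_of_nonneg_right s (show 0 ≤ 2 * (N * δ) by positivity)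
    nlinarith
  have h := lo_ibp (m := 1 / (2 * (N * δ))) (D := 3 * μ * (1 / (2 * (N * δ)))) hab
    (fun t => (L₁ t * L₂ t) ^ (-3 / 2 : ℝ)) (fun t => N / L₂ t ^ 2 - N / L₁ t ^ 2) θ
    (fun t => √(L₁ t * L₂ t) / (N * (L₁ t ^ 2 - L₂ t ^ 2)))
    (fun t => ((B₁ * L₂ t + L₁ t * B₂) / (2 * √(L₁ t * L₂ t)) * (N * (L₁ t ^ 2 - L₂ t ^ 2))
      - √(L₁ t * L₂ t) * (N * (2 * L₁ t * B₁ - 2 * L₂ t * B₂))) / (N * (L₁ t ^ 2 - L₂ t ^ 2)) ^ 2)
    hθ
    ((continuousOn_const.div (c2.pow 2).continuousOn fun t ht => (pow_pos (h2 t ht) 2).ne').sub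
      (continuousOn_const.div (c1.pow 2).continuousOn fun t ht => (pow_pos (h1 t ht) 2).ne'))
    (fun t ht => by
      have e1 := ((d1 t).mul (d2 t)).sqrt (hP t ht).ne'
      have e2 := (((d1 t).pow 2).sub ((d2 t).pow 2)).const_mul N
      have e3 := e1.fun_div e2 (mul_ne_zero hN.ne' (hΔ0 t ht))
      simpa using e3)
    (ContinuousOn.div (ContinuousOn.sub (ContinuousOn.mul (ContinuousOn.div (by fun_prop)
        (by fun_prop) fun t ht => by have := Real.sqrt_pos.2 (hP t ht); positivity) (by fun_prop))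
        (by fun_prop)) (by fun_prop) fun t ht => pow_ne_zero 2 (mul_ne_zero hN.ne' (hΔ0 t ht)))
    (fun t ht => by
      have p1 : 0 < L₁ t := h1 t ht
      have p2 : 0 < L₂ t := h2 t ht
      have := hΔ0 t ht
      simp only [mainasm_pow (hP t ht)]
      field_simp)
    (fun t ht => by
      rw [abs_div, abs_mul, abs_of_nonneg (Real.sqrt_nonneg _), abs_of_pos hN]
      exact hm t ht)
    (fun t ht => by
      have p1 : 0 < L₁ t := h1 t ht
      have p2 : 0 < L₂ t := h2 t ht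
      have p3 := abs_pos.2 (hΔ0 t ht)
      have p4 := Real.sqrt_pos.2 (hP t ht)
      have p5 := Real.mul_self_sqrt (hP t ht).le
      have n1 : |B₁| ≤ μ * L₁ t := m1 t ht
      have n2 : |B₂| ≤ μ * L₂ t := m2 t ht
      have n3 : |B₁ - B₂| ≤ μ * |L₁ t - L₂ t| := m3 t ht
      have u1 : |(B₁ * L₂ t + L₁ t * B₂) / (2 * √(L₁ t * L₂ t))| ≤ μ * √(L₁ t * L₂ t) := by
        rw [abs_div, abs_of_pos (by positivity : 0 < 2 * √(L₁ t * L₂ t)),
          div_le_iff₀ (by positivity)]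
        refine (abs_add_le _ _).trans ?_
        rw [abs_mul, abs_mul, abs_of_pos p1, abs_of_pos p2]
        nlinarith [mul_le_mul_of_nonneg_right n1 p2.le, mul_le_mul_of_nonneg_left n2 p1.le]
      have u2 : |2 * L₁ t * B₁ - 2 * L₂ t * B₂| ≤ 2 * μ * |L₁ t ^ 2 - L₂ t ^ 2| := by
        rw [show 2 * L₁ t * B₁ - 2 * L₂ t * B₂
          = (B₁ - B₂) * (L₁ t + L₂ t) + (L₁ t - L₂ t) * (B₁ + B₂) by ring,
          show L₁ t ^ 2 - L₂ t ^ 2 = (L₁ t - L₂ t) * (L₁ t + L₂ t) by ring]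
        refine (abs_add_le _ _).trans ?_
        rw [abs_mul, abs_mul, abs_mul, abs_of_pos (add_pos p1 p2)]
        have v1 := mul_le_mul_of_nonneg_right n3 (add_pos p1 p2).le
        have v2 := mul_le_mul_of_nonneg_left ((abs_add_le B₁ B₂).trans (add_le_add n1 n2))
          (abs_nonneg (L₁ t - L₂ t))
        nlinarith
      refine le_trans ?_ (mul_le_mul_of_nonneg_left (hm t ht) (by positivity))
      rw [abs_div, abs_pow, abs_mul N, abs_of_pos hN, div_le_iff₀ (by positivity)]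
      refine (abs_sub _ _).trans ?_
      rw [abs_mul, abs_mul, abs_mul, abs_mul N, abs_of_pos hN, abs_of_pos p4]
      have w1 := mul_le_mul_of_nonneg_right u1
        (show 0 ≤ N * |L₁ t ^ 2 - L₂ t ^ 2| by positivity)
      have w2 := mul_le_mul_of_nonneg_left u2 (show 0 ≤ √(L₁ t * L₂ t) * N by positivity)
      have w3 : 3 * μ * (√(L₁ t * L₂ t) / (N * |L₁ t ^ 2 - L₂ t ^ 2|))
          * (N * |L₁ t ^ 2 - L₂ t ^ 2|) ^ 2
          = 3 * μ * √(L₁ t * L₂ t) * (N * |L₁ t ^ 2 - L₂ t ^ 2|) := by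
        field_simp
      rw [w3]
      nlinarith)
  refine h.trans ?_
  have hba : 0 ≤ μ * (b - a) := mul_nonneg hμ (sub_nonneg.2 hab)
  have hNδ : 0 < N * δ := mul_pos hN hδ
  rw [div_le_div_iff₀ (by norm_num) hNδ]
  have e : (2 * (1 / (2 * (N * δ))) + 3 * μ * (1 / (2 * (N * δ))) * (b - a)) * (N * δ)
      = 1 + 3 / 2 * (μ * (b - a)) := by
    field_simp
  rw [e]
  linarith

lemma lo_one {a b N k x : ℝ} (hab : a ≤ b) (hN : 0 < N) (hk : 0 < k) (hx : x ≤ N / 8)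
    (ha : 0 ≤ a) (hb : k * b ≤ 1) (θ : ℝ → ℝ)
    (hθ : ∀ t ∈ Icc a b, HasDerivAt θ (N / (1 + k * t) ^ 2 - x) t) :
    ‖∫ t in a..b, (((1 + k * t) ^ (-3 / 2 : ℝ) : ℝ) : ℂ) * ep (θ t)‖ ≤ 4 / (N / 4 - x) := by
  set L : ℝ → ℝ := fun t => 1 + k * t with hL
  have d1 : ∀ t, HasDerivAt L k t := fun t => by
    simpa [hL] using ((hasDerivAt_id t).const_mul k).const_add 1
  have c1 : Continuous L := by rw [hL]; fun_prop
  have l1 : ∀ t ∈ Icc a b, 1 ≤ L t ∧ L t ≤ 2 := fun t ht => by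
    have := mul_le_mul_of_nonneg_left ht.2 hk.le
    have := mul_nonneg hk.le (ha.trans ht.1)
    simp only [hL]
    constructor <;> linarith
  have hX : 0 < N / 4 - x := by linarith
  have hΔ : ∀ t ∈ Icc a b, N / 4 - x ≤ N - x * L t ^ 2 ∧ |x| * L t ≤ N - x * L t ^ 2 := by
    intro t ht
    obtain ⟨p1, p2⟩ := l1 t ht
    have q1 : 1 ≤ L t ^ 2 := by nlinarith
    have q2 : L t ^ 2 ≤ 4 := by nlinarith
    have q3 : L t ≤ L t ^ 2 := by nlinarith
    rcases le_total x 0 with h | h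
    · rw [abs_of_nonpos h]
      constructor <;> nlinarith
    · rw [abs_of_nonneg h]
      constructor <;> nlinarith
  have hΔ0 : ∀ t ∈ Icc a b, 0 < N - x * L t ^ 2 := fun t ht => hX.trans_le (hΔ t ht).1
  have hm : ∀ t ∈ Icc a b, √(L t) / (N - x * L t ^ 2) ≤ 2 / (N / 4 - x) := fun t ht => by
    obtain ⟨p1, p2⟩ := l1 t ht
    have s : √(L t) ≤ 2 := Real.sqrt_le_iff.2 ⟨by norm_num, by linarith⟩
    exact div_le_div₀ (by norm_num) s hX (hΔ t ht).1
  have h := lo_ibp (m := 2 / (N / 4 - x)) (D := 3 * k * (2 / (N / 4 - x))) hab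
    (fun t => L t ^ (-3 / 2 : ℝ)) (fun t => N / L t ^ 2 - x) θ
    (fun t => √(L t) / (N - x * L t ^ 2))
    (fun t => (k / (2 * √(L t)) * (N - x * L t ^ 2) - √(L t) * (-(x * (2 * L t * k))))
      / (N - x * L t ^ 2) ^ 2) hθ
    ((continuousOn_const.div (c1.pow 2).continuousOn fun t ht =>
      (pow_pos (zero_lt_one.trans_le (l1 t ht).1) 2).ne').sub continuousOn_const)
    (fun t ht => by
      have p1 := (l1 t ht).1
      have e1 := (d1 t).sqrt (by positivity)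
      have e2 := (((d1 t).pow 2).const_mul x).const_sub N
      have e3 := e1.fun_div e2 (hΔ0 t ht).ne'
      simpa using e3)
    (ContinuousOn.div (ContinuousOn.sub (ContinuousOn.mul (ContinuousOn.div (by fun_prop)
        (by fun_prop) fun t ht => by have := (l1 t ht).1; positivity) (by fun_prop))
        (by fun_prop)) (by fun_prop) fun t ht => pow_ne_zero 2 (hΔ0 t ht).ne')
    (fun t ht => by
      have p1 := (l1 t ht).1
      have := (hΔ0 t ht).ne'
      have p2 : 0 < L t := by linarith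
      simp only [mainasm_pow p2]
      field_simp)
    (fun t ht => by
      rw [abs_of_nonneg (div_nonneg (Real.sqrt_nonneg _) (hΔ0 t ht).le)]
      exact hm t ht)
    (fun t ht => by
      obtain ⟨p1, p2⟩ := l1 t ht
      have p3 := hΔ0 t ht
      have p4 : 1 ≤ √(L t) := Real.one_le_sqrt.2 p1
      have p5 := (hΔ t ht).2
      refine le_trans ?_ (mul_le_mul_of_nonneg_left (hm t ht) (by positivity))
      rw [abs_div, abs_of_pos (pow_pos p3 2), div_le_iff₀ (by positivity)]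
      refine (abs_sub _ _).trans ?_
      rw [abs_mul, abs_mul, abs_neg, abs_mul, abs_of_pos p3,
        abs_of_pos (by positivity : 0 < k / (2 * √(L t))),
        abs_of_pos (by positivity : 0 < √(L t)), abs_of_pos (by positivity : 0 < 2 * L t * k)]
      have u1 : k / (2 * √(L t)) ≤ k * √(L t) := by
        rw [div_le_iff₀ (by positivity)]
        nlinarith [mul_pos hk (show 0 < √(L t) by positivity), mul_le_mul p4 p4 zero_le_one
          (by positivity)]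
      have w1 := mul_le_mul_of_nonneg_right u1 p3.le
      have w2 := mul_le_mul_of_nonneg_left p5 (show 0 ≤ 2 * k * √(L t) by positivity)
      have w3 : 3 * k * (√(L t) / (N - x * L t ^ 2)) * (N - x * L t ^ 2) ^ 2
          = 3 * k * √(L t) * (N - x * L t ^ 2) := by
        field_simp
      rw [w3]
      nlinarith)
  refine h.trans ?_
  have hba : k * (b - a) ≤ 1 := by nlinarith [mul_nonneg hk.le ha]
  have e : (2 * (2 / (N / 4 - x)) + 3 * k * (2 / (N / 4 - x)) * (b - a)) / 3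
      = (4 / 3 + 2 * (k * (b - a))) / (N / 4 - x) := by
    field_simp
    ring
  rw [e]
  exact div_le_div_of_nonneg_right (by linarith) hX.le

/-! The chirps attached to the cusps and their almost orthogonality. -/

/-- the chirp with local frequency `N / (β + j r)²` -/
def loT (N β j r : ℝ) : ℂ := (((β + j * r) ^ (-3 / 2 : ℝ) : ℝ) : ℂ) * ep ((N / β * r / (β + j * r) : ℝ))

lemma lo_phase {N β j r : ℝ} (hβ : β ≠ 0) (h : β + j * r ≠ 0) :
    HasDerivAt (fun r : ℝ => N / β * r / (β + j * r)) (N / (β + j * r) ^ 2) r := by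
  have d1 : HasDerivAt (fun r : ℝ => β + j * r) j r := by
    simpa using ((hasDerivAt_id r).const_mul j).const_add β
  have d2 : HasDerivAt (fun r : ℝ => N / β * r) (N / β) r := by
    simpa using (hasDerivAt_id r).const_mul (N / β)
  refine (d2.fun_div d1 h).congr_deriv ?_
  field_simp
  ring

lemma lo_conj (N β j r : ℝ) : (starRingEnd ℂ) (loT N β j r)
    = (((β + j * r) ^ (-3 / 2 : ℝ) : ℝ) : ℂ) * ep ((-(N / β * r / (β + j * r)) : ℝ)) := by
  rw [loT, map_mul, conj_ofReal, mainasm_conj_ep, ofReal_neg]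

lemma lo_norm {N β j r : ℝ} (h : 0 < β + j * r) : ‖loT N β j r‖ = (β + j * r) ^ (-3 / 2 : ℝ) := by
  rw [loT, norm_mul, norm_ep_real, mul_one, norm_real, Real.norm_of_nonneg (by positivity)]

lemma lo_norm_le {N β j r : ℝ} (h : 1 ≤ β + j * r) : ‖loT N β j r‖ ≤ 1 := by
  rw [lo_norm (by linarith)]
  exact Real.rpow_le_one_of_one_le_of_nonpos h (by norm_num)

lemma lo_meas (N β j : ℝ) : Measurable (loT N β j) := by
  unfold loT
  exact (measurable_ofReal.comp (by fun_prop)).mul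
    (continuous_ep.measurable.comp (measurable_ofReal.comp (by fun_prop)))

lemma lo_gen {N k A B a b j : ℝ} (hN : 0 < N) (hk : 2 ≤ k) (hj : 0 ≤ j) (ha : 1 / (2 * k) ≤ a)
    (hb : b ≤ 1 / k) (θ : ℝ → ℝ)
    (h : ∀ r, 1 ≤ 2 * k * r → k * r ≤ 1 → 0 < A + B * r ∧ HasDerivAt θ (N / (A + B * r) ^ 2) r ∧
      (1 + j) / (4 * k ^ 2) ≤ |1 + k * r - (A + B * r)| ∧ |B| ≤ 3 * k * (A + B * r) ∧
      |k - B| ≤ 3 * k * |1 + k * r - (A + B * r)|) :
    ‖∫ r in Ioc a b, (((A + B * r) ^ (-3 / 2 : ℝ) : ℝ) : ℂ) * ep (θ r)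
      * (starRingEnd ℂ) (loT N 1 k r)‖ ≤ 12 * k ^ 2 / (N * (1 + j)) := by
  have hk0 : 0 < k := by linarith
  rcases lt_or_ge b a with hab | hab
  · rw [Ioc_eq_empty (not_lt.2 hab.le), Measure.restrict_empty, integral_zero_measure, norm_zero]
    positivity
  have hr : ∀ r ∈ Icc a b, 1 ≤ 2 * k * r ∧ k * r ≤ 1 := fun r hr => by
    have h1 := ha.trans hr.1
    have h2 := hr.2.trans hb
    rw [div_le_iff₀ (by positivity)] at h1
    rw [le_div_iff₀ hk0] at h2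
    constructor <;> linarith
  have hL : ∀ r ∈ Icc a b, 0 < 1 + k * r := fun r h => by linarith [(hr r h).1]
  have key := lo_pair (A₁ := 1) (B₁ := k) (A₂ := A) (B₂ := B) (δ := (1 + j) / (4 * k ^ 2))
    (μ := 3 * k) hab hN (by positivity) (by positivity)
    (fun r => θ r - N / 1 * r / (1 + k * r)) hL (fun r t => (h r (hr r t).1 (hr r t).2).1)
    (fun r t => (h r (hr r t).1 (hr r t).2).2.1.fun_sub (lo_phase one_ne_zero (hL r t).ne'))
    (fun r t => (h r (hr r t).1 (hr r t).2).2.2.1)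
    (fun r t => by
      rw [abs_of_pos hk0]
      nlinarith [(hr r t).1])
    (fun r t => (h r (hr r t).1 (hr r t).2).2.2.2.1) (fun r t => (h r (hr r t).1 (hr r t).2).2.2.2.2)
  rw [← intervalIntegral.integral_of_le hab]
  have e : ∫ r in a..b, (((A + B * r) ^ (-3 / 2 : ℝ) : ℝ) : ℂ) * ep (θ r)
      * (starRingEnd ℂ) (loT N 1 k r) = ∫ r in a..b,
      ((((1 + k * r) * (A + B * r)) ^ (-3 / 2 : ℝ) : ℝ) : ℂ)
        * ep ((θ r - N / 1 * r / (1 + k * r) : ℝ)) := by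
    refine intervalIntegral.integral_congr fun r t => ?_
    rw [uIcc_of_le hab] at t
    simp only [lo_conj, Real.mul_rpow (hL r t).le (h r (hr r t).1 (hr r t).2).1.le, sub_eq_add_neg,
      ofReal_add, ep_add, ofReal_mul]
    ring
  rw [e]
  refine key.trans ?_
  have h3 : 3 * k * (b - a) ≤ 2 := by
    have h1 := (hr a ⟨le_rfl, hab⟩).1
    have h2 := (hr b ⟨hab, le_rfl⟩).2
    nlinarith
  have e2 : 12 * k ^ 2 / (N * (1 + j)) = 3 / (N * ((1 + j) / (4 * k ^ 2))) := by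
    field_simp
    norm_num
  rw [e2]
  exact div_le_div_of_nonneg_right (by linarith) (by positivity)

lemma lo_offP {N k β j a b : ℝ} (hN : 0 < N) (hk : 2 ≤ k) (hj : 0 ≤ j)
    (hβ : (β = 1 ∧ 1 ≤ |k - j|) ∨ 3 ≤ β) (ha : 1 / (2 * k) ≤ a) (hb : b ≤ 1 / k) :
    ‖∫ r in Ioc a b, loT N β j r * (starRingEnd ℂ) (loT N 1 k r)‖ ≤ 12 * k ^ 2 / (N * (1 + j)) := by
  have hβ1 : 1 ≤ β := by rcases hβ with h | h <;> linarith [h]
  refine lo_gen (A := β) (B := j) hN hk hj ha hb (fun r => N / β * r / (β + j * r)) fun r h1 h2 => ?_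
  have hr : 0 < r := by nlinarith
  have hjr : 0 ≤ j * r := by positivity
  have hj2 : j ≤ 2 * k * (j * r) := by nlinarith
  refine ⟨by linarith, lo_phase (by linarith) (by linarith), ?_, ?_, ?_⟩
  · rw [div_le_iff₀ (by positivity)]
    rcases hβ with ⟨rfl, h⟩ | h
    · rw [show 1 + k * r - (1 + j * r) = (k - j) * r by ring, abs_mul, abs_of_pos hr]
      have a1 : j ≤ k + |k - j| := by linarith [neg_abs_le (k - j)]
      have a2 : 1 + j ≤ 2 * k * |k - j| := by nlinarith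
      have a3 := mul_le_mul_of_nonneg_left h1 (show 0 ≤ 2 * k * |k - j| by positivity)
      nlinarith
    · rw [abs_of_nonpos (by linarith)]
      have a1 : 1 + j * r ≤ -(1 + k * r - (β + j * r)) := by linarith
      have a2 : 1 + j ≤ (1 + j * r) * (2 * k) := by nlinarith
      have a3 : (1 + j * r) * (2 * k) ≤ (1 + j * r) * (4 * k ^ 2) :=
        mul_le_mul_of_nonneg_left (by nlinarith) (by positivity)
      have a4 := mul_le_mul_of_nonneg_right a1 (show 0 ≤ 4 * k ^ 2 by positivity)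
      linarith
  · rw [abs_of_nonneg hj]
    nlinarith
  · rcases hβ with ⟨rfl, h⟩ | h
    · rw [show 1 + k * r - (1 + j * r) = (k - j) * r by ring, abs_mul, abs_of_pos hr]
      nlinarith [mul_le_mul_of_nonneg_left h1 (abs_nonneg (k - j))]
    · rw [abs_of_nonpos (show 1 + k * r - (β + j * r) ≤ 0 by linarith)]
      have a1 : 1 + j * r ≤ -(1 + k * r - (β + j * r)) := by linarith
      have a2 := mul_le_mul_of_nonneg_left a1 (show 0 ≤ 3 * k by positivity)
      have a3 : |k - j| ≤ k + j := abs_le.2 ⟨by linarith, by linarith⟩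
      nlinarith

lemma lo_offM {N k β j a b : ℝ} (hN : 0 < N) (hk : 2 ≤ k) (hj : 1 ≤ j) (hβ : 1 ≤ β)
    (ha : 1 / (2 * k) ≤ a) (hb : b ≤ 1 / k) :
    ‖∫ r in Ioc a b, (starRingEnd ℂ) (loT N β j (2 - r)) * (starRingEnd ℂ) (loT N 1 k r)‖
      ≤ 12 * k ^ 2 / (N * (1 + j)) := by
  have e : ∀ r, β + j * (2 - r) = β + 2 * j + -j * r := fun r => by ring
  simp only [lo_conj N β j, e]
  refine lo_gen (A := β + 2 * j) (B := -j) hN hk (by linarith) ha hb
    (fun r => -(N / β * (2 - r) / (β + 2 * j + -j * r))) fun r h1 h2 => ?_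
  have hr : 0 < r := by nlinarith
  have hr2 : r ≤ 1 / 2 := by nlinarith
  have hjr : j * r ≤ j / 2 := by nlinarith
  have a0 : j / 2 ≤ -(1 + k * r - (β + 2 * j + -j * r)) := by linarith
  refine ⟨by linarith, ?_, ?_, ?_, ?_⟩
  · have d := (lo_phase (N := N) (β := β) (j := j) (r := 2 - r) (by linarith)
      (by rw [e]; linarith)).comp r ((hasDerivAt_id r).const_sub 2)
    have d' := d.fun_neg
    simp only [Function.comp_def, e] at d'
    simpa using d'
  · rw [abs_of_nonpos (by linarith), div_le_iff₀ (by positivity)]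
    have a1 := mul_le_mul_of_nonneg_right a0 (show 0 ≤ 4 * k ^ 2 by positivity)
    have a2 : 4 ≤ k ^ 2 := by nlinarith
    nlinarith
  · rw [abs_neg, abs_of_nonneg (by linarith)]
    nlinarith
  · rw [abs_of_nonpos (show 1 + k * r - (β + 2 * j + -j * r) ≤ 0 by linarith), sub_neg_eq_add,
      abs_of_nonneg (by linarith)]
    have a2 := mul_le_mul_of_nonneg_left a0 (show 0 ≤ 3 * k by positivity)
    nlinarith

lemma lo_diag {N k : ℝ} (hk : 0 < k) :
    1 / (16 * k) ≤ ∫ r in Ioc (1 / (2 * k)) (1 / k), ‖loT N 1 k r‖ ^ 2 := by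
  have hab : 1 / (2 * k) ≤ 1 / k := one_div_le_one_div_of_le hk (by linarith)
  have hr : ∀ r ∈ Ioc (1 / (2 * k)) (1 / k), 1 ≤ 1 + k * r ∧ 1 + k * r ≤ 2 := fun r hr => by
    have h1 : 0 < r := lt_trans (by positivity) hr.1
    have h2 := hr.2
    rw [le_div_iff₀ hk] at h2
    constructor <;> nlinarith
  have hi : IntegrableOn (fun r => ‖loT N 1 k r‖ ^ 2) (Ioc (1 / (2 * k)) (1 / k)) :=
    Measure.integrableOn_of_bounded (M := 1) measure_Ioc_lt_top.ne
      ((lo_meas N 1 k).norm.pow_const 2).aestronglyMeasurable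
      ((ae_restrict_mem measurableSet_Ioc).mono fun r h => by
        rw [Real.norm_of_nonneg (by positivity)]
        exact pow_le_one₀ (norm_nonneg _) (lo_norm_le (hr r h).1))
  have h := setIntegral_mono_on (f := fun _ => (1 / 8 : ℝ)) (integrableOn_const measure_Ioc_lt_top.ne)
    hi measurableSet_Ioc fun r h => by
      obtain ⟨h1, h2⟩ := hr r h
      rw [lo_norm (by linarith), ← Real.rpow_natCast, ← Real.rpow_mul (by linarith)]
      refine le_trans (le_of_eq ?_) (Real.rpow_le_rpow_of_nonpos (by linarith) h2 (by norm_num))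
      rw [show (-3 / 2 * ((2 : ℕ) : ℝ)) = -((3 : ℕ) : ℝ) by norm_num, Real.rpow_neg (by norm_num),
        Real.rpow_natCast]
      norm_num
  refine le_trans (le_of_eq ?_) h
  rw [setIntegral_const, Real.volume_real_Ioc_of_le hab, smul_eq_mul]
  field_simp
  norm_num

/-! The main term as a Fourier transform. -/

lemma lo_parseval {g W : ℝ → ℂ} (g1 : Integrable g) (g2 : MemLp g 2) (w1 : Integrable W)
    (w2 : MemLp W 2) :
    ∫ x, 𝓕 g x * (starRingEnd ℂ) (𝓕 W x) = ∫ v, g v * (starRingEnd ℂ) (W v) := by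
  have h := Lp.inner_fourier_eq (w2.toLp W) (g2.toLp g)
  rw [L2.inner_def, L2.inner_def] at h
  have e1 : ∫ x, 𝓕 g x * (starRingEnd ℂ) (𝓕 W x) = ∫ x, inner ℂ
      ((𝓕 (w2.toLp W) : Lp ℂ 2 (volume : Measure ℝ)) x)
      ((𝓕 (g2.toLp g) : Lp ℂ 2 (volume : Measure ℝ)) x) := by
    refine integral_congr_ae ?_
    filter_upwards [planch_ae g1 g2, planch_ae w1 w2] with x h1 h2
    rw [h1, h2, RCLike.inner_apply]
  have e2 : ∫ v, g v * (starRingEnd ℂ) (W v) = ∫ v, inner ℂ (w2.toLp W v) (g2.toLp g v) := by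
    refine integral_congr_ae ?_
    filter_upwards [g2.coeFn_toLp, w2.coeFn_toLp] with x h1 h2
    rw [h1, h2, RCLike.inner_apply]
  rw [e1, e2, h]

/-- the integrand on the horizontal half line -/
def loΓ (σ c₀ H p ζ : ℝ) : ℂ :=
  if 0 < σ * (ζ - (1 / 2 - c₀)) then ph 0 ζ * kc H ((ζ + c₀ - p : ℝ) : ℂ) else 0

/-- the same in the dual variable of `x` -/
def loG (σ c₀ H p v : ℝ) : ℂ :=
  (1 / (2 * (v + (1 / 2 - c₀)) ^ 2)) • loΓ σ c₀ H p (1 / (2 * (v + (1 / 2 - c₀))))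

lemma lo_term {σ c₀ H p : ℝ} (hH : 0 ≤ H) (hσ : σ = 1 ∨ σ = -1) (hc : c₀ = 0 ∨ c₀ = 1)
    (hp : 1 / 2 ≤ σ * (1 / 2 - p)) :
    Integrable (loG σ c₀ H p) ∧ MemLp (loG σ c₀ H p) 2 ∧ ∀ x : ℝ, 𝓕 (loG σ c₀ H p) x
      = ep ((1 - 2 * c₀) * x) * ∫ s in Ioi (0 : ℝ), ph x ((1 / 2 - c₀ + σ * s : ℝ) : ℂ)
        * kc H (((1 / 2 : ℝ) : ℂ) + σ * s - p) := by
  have hc' : c₀ ≠ 1 / 2 := by rcases hc with rfl | rfl <;> norm_num
  set c : ℝ := 1 / 2 - c₀ with hcdef
  have hσ2 : ∀ s, σ * (c + σ * s - c) = s := fun s => by rcases hσ with rfl | rfl <;> ring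
  have mp : MeasurePreserving (fun s : ℝ => c + σ * s) volume volume := by
    rcases hσ with rfl | rfl
    · simpa using measurePreserving_add_left (volume : Measure ℝ) c
    · simpa [sub_eq_add_neg] using Measure.measurePreserving_sub_left (volume : Measure ℝ) c
  have me : MeasurableEmbedding (fun s : ℝ => c + σ * s) := by
    have h0 : σ ≠ 0 := by rcases hσ with rfl | rfl <;> norm_num
    exact ((Homeomorph.mulLeft₀ σ h0).trans (Homeomorph.addLeft c)).measurableEmbedding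
  have ek : ∀ s : ℝ, ((1 / 2 : ℝ) : ℂ) + σ * s - p = ((c + σ * s + c₀ - p : ℝ) : ℂ) := fun s => by
    rw [hcdef]
    push_cast
    ring
  set G : ℝ → ℂ := indicator (Ioi 0) fun s : ℝ => ph 0 ((c + σ * s : ℝ) : ℂ)
    * kc H (((1 / 2 : ℝ) : ℂ) + σ * s - p) with hG
  have hGi : Integrable G :=
    (mainasm_int (x := 0) hH hσ hc' hp).integrable_indicator measurableSet_Ioi
  have hΓG : ∀ s, loΓ σ c₀ H p (c + σ * s) = G s := fun s => by
    rw [loΓ, ← hcdef, hσ2, hG, indicator_apply, ek]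
    rfl
  have hΓi : Integrable (loΓ σ c₀ H p) := (mp.integrable_comp_emb me).1 (by
    simpa only [Function.comp_def, hΓG] using hGi)
  have hb : ∀ s, ‖G s‖ ^ 2 * (c + σ * s) ^ 2
      ≤ indicator (Ioi 0) (fun s : ℝ => (s + 1 / 2) ^ (-2 : ℝ)) s := by
    intro s
    by_cases hs : s ∈ Ioi (0 : ℝ)
    · have hs' : 0 < s := hs
      rw [hG, indicator_of_mem hs, indicator_of_mem hs, norm_mul, mul_pow, ph]
      have a1 : |c + σ * s| ≤ s + 1 / 2 := by
        rw [hcdef]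
        rcases hσ with rfl | rfl <;> rcases hc with rfl | rfl <;> rw [abs_le] <;>
          constructor <;> linarith
      have a2 : ‖ep (-((0 : ℝ) : ℂ) / ((c + σ * s : ℝ) : ℂ)) / rt ((c + σ * s : ℝ) : ℂ)‖ ^ 2
          * (c + σ * s) ^ 2 ≤ |c + σ * s| := by
        rw [norm_div, norm_rt, div_pow, Real.sq_sqrt (norm_nonneg _), norm_real,
          Real.norm_eq_abs, ← sq_abs (c + σ * s)]
        simp only [ofReal_zero, neg_zero, zero_div, ep_zero, norm_one, one_pow]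
        rcases (abs_nonneg (c + σ * s)).eq_or_lt with h | h
        · rw [← h]; simp
        · field_simp
          rfl
      have a3 : s + 1 / 2 ≤ |c + σ * s + c₀ - p| := by
        rw [hcdef]
        rcases hσ with rfl | rfl
        · exact le_abs.2 (Or.inl (by linarith))
        · exact le_abs.2 (Or.inr (by linarith))
      have a4 : ‖kc H (((1 / 2 : ℝ) : ℂ) + σ * s - p)‖ ≤ (s + 1 / 2) ^ (-3 / 2 : ℝ) := by
        rw [ek, mainasm_norm_kc _ (abs_pos.1 (lt_of_lt_of_le (by positivity) a3))]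
        exact Real.rpow_le_rpow_of_nonpos (by positivity) a3 (by norm_num)
      have a5 : (s + 1 / 2) ^ (-2 : ℝ) = ((s + 1 / 2) ^ (-3 / 2 : ℝ)) ^ 2 * (s + 1 / 2) := by
        rw [← Real.rpow_natCast, ← Real.rpow_mul (by positivity), ← Real.rpow_add_one (by positivity)]
        norm_num
      rw [a5]
      calc _ = ‖kc H (((1 / 2 : ℝ) : ℂ) + σ * s - p)‖ ^ 2 * (‖ep (-((0 : ℝ) : ℂ)
            / ((c + σ * s : ℝ) : ℂ)) / rt ((c + σ * s : ℝ) : ℂ)‖ ^ 2 * (c + σ * s) ^ 2) := by ring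
        _ ≤ _ := mul_le_mul (pow_le_pow_left₀ (norm_nonneg _) a4 2) (a2.trans a1) (by positivity)
            (by positivity)
    · rw [hG, indicator_of_notMem hs, indicator_of_notMem hs]
      simp
  have hI : Integrable (indicator (Ioi 0) fun s : ℝ => (s + 1 / 2) ^ (-2 : ℝ)) :=
    (integrableOn_add_rpow_Ioi_of_lt (by norm_num) (by norm_num)).integrable_indicator
      measurableSet_Ioi
  have hi : Integrable fun s => ‖G s‖ ^ 2 * (c + σ * s) ^ 2 :=
    hI.mono' ((hGi.aestronglyMeasurable.norm.pow 2).mul (by fun_prop))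
      (Eventually.of_forall fun s => by rw [Real.norm_of_nonneg (by positivity)]; exact hb s)
  have h2 : Integrable fun ζ => ‖loΓ σ c₀ H p ζ‖ ^ 2 * ζ ^ 2 := (mp.integrable_comp_emb me).1 (by
    simpa only [Function.comp_def, hΓG] using hi)
  set g : ℝ → ℂ := fun ν => (1 / (2 * ν ^ 2)) • loΓ σ c₀ H p (1 / (2 * ν)) with hg
  have hg1 : Integrable g := (planch_cov _).1.1 hΓi
  have e2 : (fun ν => ‖g ν‖ ^ 2) = fun ν : ℝ =>
      (1 / (2 * ν ^ 2)) • (2 * (‖loΓ σ c₀ H p (1 / (2 * ν))‖ ^ 2 * (1 / (2 * ν)) ^ 2)) := by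
    funext ν
    simp only [hg, norm_smul, smul_eq_mul, mul_pow, Real.norm_eq_abs, sq_abs]
    rcases eq_or_ne ν 0 with rfl | h0
    · simp
    · field_simp
  have hg2 : Integrable fun ν => ‖g ν‖ ^ 2 := by
    rw [e2]
    exact (planch_cov fun ζ : ℝ => 2 * (‖loΓ σ c₀ H p ζ‖ ^ 2 * ζ ^ 2)).1.1 (h2.const_mul 2)
  have e3 : loG σ c₀ H p = fun v => g (v - -c) := by
    funext v
    simp only [hg, loG, sub_neg_eq_add, ← hcdef]
  have k1 : Integrable (loG σ c₀ H p) := by rw [e3]; exact hg1.comp_sub_right _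
  refine ⟨k1, (memLp_two_iff_integrable_sq_norm k1.1).2 ?_, fun x => ?_⟩
  · rw [e3]; exact hg2.comp_sub_right (-c)
  · rw [planch_eq, e3, planch_shift]
    congr 1
    · rw [hcdef]
      congr 1
      push_cast
      ring
    · have e4 : 𝓕 g x = ∫ ζ : ℝ, loΓ σ c₀ H p ζ * ep (-x / ζ) := by
        rw [planch_eq, (planch_cov fun ζ : ℝ => loΓ σ c₀ H p ζ * ep (-x / ζ)).2]
        congr 1; funext ν
        simp only [hg, smul_mul_assoc]
        congr 3
        push_cast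
        rw [one_div, div_inv_eq_mul]
        ring
      rw [e4, ← mp.integral_comp me, ← integral_indicator measurableSet_Ioi]
      refine integral_congr_ae (Eventually.of_forall fun s => ?_)
      simp only [hΓG]
      by_cases hs : s ∈ Ioi (0 : ℝ)
      · rw [hG, indicator_of_mem hs, indicator_of_mem hs, mainasm_ph x]
        ring
      · rw [hG, indicator_of_notMem hs, indicator_of_notMem hs, zero_mul]

lemma lo_amp {β j r : ℝ} (hβ : 0 < β) (hj : 0 ≤ j) (hr : 0 < r) :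
    √β / β ^ 2 * (1 / (2 * (r / 2) ^ 2)) * ((√(1 / r))⁻¹ * (1 / r + j / β) ^ (-3 / 2 : ℝ))
      = 2 * (β + j * r) ^ (-3 / 2 : ℝ) := by
  have h1 : 0 < β + j * r := by positivity
  have e : 1 / r + j / β = (β + j * r) / (β * r) := by field_simp
  have s1 := Real.sqrt_pos.2 hβ
  have s2 := Real.sqrt_pos.2 hr
  have t1 := Real.sq_sqrt hβ.le
  have t2 := Real.sq_sqrt hr.le
  rw [e, Real.div_rpow h1.le (by positivity), mainasm_pow (mul_pos hβ hr), Real.sqrt_mul hβ.le,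
    one_div r, Real.sqrt_inv, inv_inv]
  field_simp

lemma lo_ev1 {N β j r : ℝ} (hβ : 0 < β) (hj : 0 ≤ j) (h0 : 0 < r) (h2 : r < 2) :
    ((√β / β ^ 2 : ℝ) : ℂ) * loG 1 0 (N / β ^ 2) (-j / β) ((r - 1) / 2) = 2 * loT N β j r := by
  have e1 : (r - 1) / 2 + (1 / 2 - 0) = r / 2 := by ring
  have e2 : 1 / (2 * (r / 2)) = 1 / r := by ring
  have e3 : 1 / r + 0 - -j / β = 1 / r + j / β := by ring
  have p1 : 0 < 1 / r := by positivity
  have p2 : 0 < 1 * (1 / r - (1 / 2 - 0)) := by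
    have := one_div_lt_one_div_of_lt h0 h2
    linarith
  have e4 := mainasm_rt (Or.inl rfl) p1
  rw [one_mul] at e4
  have e5 : (((N / β ^ 2 : ℝ) : ℂ) / ((1 / r + j / β : ℝ) : ℂ))
      = ((N / β * r / (β + j * r) : ℝ) : ℂ) := by
    rw [← ofReal_div]
    congr 1
    have : 0 < β + j * r := by positivity
    field_simp
  have e6 := congrArg (fun t : ℝ => (t : ℂ)) (lo_amp hβ hj h0)
  have r1 : rt ((1 : ℝ) : ℂ) ≠ 0 := rt_ne (by simp)
  rw [loG, e1, e2, loΓ, if_pos p2, e3, mainasm_kc_pos _ (by positivity), kk, e5, ph, e4, loT,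
    real_smul]
  simp only [ofReal_mul, ofReal_inv, ofReal_ofNat] at e6
  simp only [ofReal_zero, neg_zero, zero_div, ep_zero, ofReal_one] at r1 ⊢
  rw [← mul_assoc 2, ← e6]
  field_simp

lemma lo_ev2 {H p r : ℝ} (h0 : 0 < r) (h2 : r < 2) : loG 1 1 H p ((r - 1) / 2) = 0 := by
  have e1 : 1 / (2 * ((r - 1) / 2 + (1 / 2 - 1))) = -(1 / (2 - r)) := by
    rw [← div_neg]; congr 1; ring
  have := one_div_lt_one_div_of_lt (show 0 < 2 - r by linarith) (show 2 - r < 2 by linarith)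
  rw [loG, e1, loΓ, if_neg (by linarith), smul_zero]

lemma lo_ev3 {H p r : ℝ} (h0 : 0 < r) (h2 : r < 2) : loG (-1) 0 H p ((r - 1) / 2) = 0 := by
  have e1 : 1 / (2 * ((r - 1) / 2 + (1 / 2 - 0))) = 1 / r := by
    congr 1; ring
  have := one_div_lt_one_div_of_lt h0 h2
  rw [loG, e1, loΓ, if_neg (by linarith), smul_zero]

lemma lo_ev4 {N β j r : ℝ} (hβ : 0 < β) (hj : 0 ≤ j) (h0 : 0 < r) (h2 : r < 2) :
    ((√β / β ^ 2 : ℝ) : ℂ) * loG (-1) 1 (N / β ^ 2) ((β + j) / β) ((r - 1) / 2)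
      = 2 * (starRingEnd ℂ) (loT N β j (2 - r)) := by
  obtain ⟨ρ, rfl⟩ : ∃ ρ, r = 2 - ρ := ⟨2 - r, by ring⟩
  have h0' : 0 < ρ := by linarith
  have e1 : (2 - ρ - 1) / 2 + (1 / 2 - 1) = -(ρ / 2) := by ring
  have e2 : 1 / (2 * -(ρ / 2)) = -1 * (1 / ρ) := by
    field_simp
  have e3 : -1 * (1 / ρ) + 1 - (β + j) / β = -(1 / ρ + j / β) := by
    field_simp
    ring
  have p1 : 0 < 1 / ρ := by positivity
  have p2 : 0 < -1 * (-1 * (1 / ρ) - (1 / 2 - 1)) := by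
    have := one_div_lt_one_div_of_lt h0' (show ρ < 2 by linarith)
    linarith
  have e4 := mainasm_rt (Or.inr rfl) p1
  have e5 : (((N / β ^ 2 : ℝ) : ℂ) / ((1 / ρ + j / β : ℝ) : ℂ))
      = ((N / β * ρ / (β + j * ρ) : ℝ) : ℂ) := by
    rw [← ofReal_div]
    congr 1
    have : 0 < β + j * ρ := by positivity
    field_simp
  have e6 := congrArg (fun t : ℝ => (t : ℂ)) (lo_amp hβ hj h0')
  have r1 : rt ((-1 : ℝ) : ℂ) ≠ 0 := rt_ne (by simp)
  rw [loG, e1, e2, loΓ, if_pos p2, e3, ofReal_neg, mainasm_kc_neg _ (by positivity), kk, e5, ph, e4,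
    sub_sub_cancel, loT, real_smul, neg_sq, map_mul, map_mul, conj_ofReal, conj_ofReal]
  simp only [ofReal_mul, ofReal_inv, ofReal_ofNat] at e6
  simp only [ofReal_zero, neg_zero, zero_div, ep_zero, ofReal_one, ofReal_neg] at r1 ⊢
  rw [← mul_assoc 2, ← e6]
  field_simp

/-! The main term as the Fourier transform of an explicit sum of chirps. -/

/-- `g` is in `L¹ ∩ L²` with Fourier transform `F` -/
structure LoF (g F : ℝ → ℂ) : Prop where
  i1 : Integrable g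
  i2 : MemLp g 2
  eq : ∀ x, 𝓕 g x = F x

lemma LoF.add {g F g' F' : ℝ → ℂ} (h : LoF g F) (h' : LoF g' F') :
    LoF (fun v => g v + g' v) (fun x => F x + F' x) :=
  ⟨h.i1.add h'.i1, h.i2.add h'.i2, fun x => by
    rw [← h.eq, ← h'.eq, planch_eq, planch_eq, planch_eq,
      ← integral_add (planch_int h.i1 x) (planch_int h'.i1 x)]
    simp only [add_mul]⟩

lemma LoF.mul {g F : ℝ → ℂ} (h : LoF g F) (c : ℂ) : LoF (fun v => c * g v) (fun x => c * F x) :=
  ⟨h.i1.const_mul c, h.i2.const_mul c, fun x => by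
    rw [← h.eq, planch_eq, planch_eq, ← integral_const_mul]
    simp only [mul_assoc]⟩

lemma LoF.sum {ι : Type} (B : Finset ι) {g F : ι → ℝ → ℂ} (h : ∀ i ∈ B, LoF (g i) (F i)) :
    LoF (fun v => ∑ i ∈ B, g i v) (fun x => ∑ i ∈ B, F i x) := by
  classical
  induction B using Finset.induction_on with
  | empty => exact ⟨by simp, by simp, fun x => by simp [planch_eq]⟩
  | insert a s ha ih =>
    simp only [Finset.sum_insert ha]
    exact (h a (Finset.mem_insert_self _ _)).add (ih fun i hi => h i (Finset.mem_insert_of_mem hi))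

/-- one side of the main term -/
def loB (n β : ℕ) (σ v : ℝ) : ℂ :=
  ∑ q ∈ mainasmQ n β σ, σ * ((√β / β ^ 2 : ℝ) : ℂ) * eC n β q *
    (loG σ 0 (n / β ^ 2) (q / β) v + ep (1 / 4) * loG σ 1 (n / β ^ 2) (q / β) v)

/-- the inverse Fourier transform of the main term -/
def loA (n : ℕ) (v : ℝ) : ℂ := 1 / 2 * ∑ β ∈ BS n, (loB n β 1 v + loB n β (-1) v)

lemma loB_spec (n β : ℕ) {σ : ℝ} (hσ : σ = 1 ∨ σ = -1) : LoF (loB n β σ) (mainasmP n β σ) := by
  have hH : (0 : ℝ) ≤ n / β ^ 2 := by positivity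
  have hA : ∀ q ∈ mainasmQ n β σ, 1 / 2 ≤ σ * (1 / 2 - (q : ℝ) / β) :=
    fun q hq => (Finset.mem_filter.1 hq).2.1
  have k : ∀ c₀ : ℝ, c₀ = 0 ∨ c₀ = 1 → ∀ q ∈ mainasmQ n β σ, LoF (loG σ c₀ (n / β ^ 2) (q / β)) _ :=
    fun c₀ hc q hq => ⟨(lo_term hH hσ hc (hA q hq)).1, (lo_term hH hσ hc (hA q hq)).2.1,
      (lo_term hH hσ hc (hA q hq)).2.2⟩
  have h := LoF.sum (mainasmQ n β σ) fun q hq => ((k 0 (Or.inl rfl) q hq).add
    ((k 1 (Or.inr rfl) q hq).mul (ep (1 / 4)))).mul (σ * ((√β / β ^ 2 : ℝ) : ℂ) * eC n β q)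
  refine ⟨h.i1, h.i2, fun x => (h.eq x).trans ?_⟩
  rw [mainasmP, mainasmM, mainasmM]
  simp only [mainasm_split]
  rw [integral_finsetSum _ fun q hq => (mainasm_int hH hσ (by norm_num) (hA q hq)).const_mul _,
    integral_finsetSum _ fun q hq => (mainasm_int hH hσ (by norm_num) (hA q hq)).const_mul _,
    Finset.mul_sum, Finset.mul_sum, ← Finset.sum_add_distrib]
  refine Finset.sum_congr rfl fun q _ => ?_
  rw [integral_const_mul, integral_const_mul]
  have e0 : ((1 : ℂ) - 2 * ((0 : ℝ) : ℂ)) * x = x := by simp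
  have e1 : ((1 : ℂ) - 2 * ((1 : ℝ) : ℂ)) * x = -x := by push_cast; ring
  rw [e0, e1]
  push_cast
  ring

theorem loA_spec : ∃ C : ℝ, 0 ≤ C ∧ ∀ n : ℕ, 2 ≤ n → Integrable (loA n) ∧ MemLp (loA n) 2 ∧
    (∀ x : ℝ, 0 ≤ x → MT x n = 𝓕 (loA n) x) ∧ ∫ x, ‖𝓕 (loA n) x‖ ^ 2 ≤ C * Real.log n ^ 9 := by
  obtain ⟨K₀, p₀, h₀⟩ := mainasm_side (Or.inl rfl)
  obtain ⟨K₁, p₁, h₁⟩ := mainasm_side (Or.inr rfl)
  obtain ⟨C, hC⟩ := sum_wt
  refine ⟨((K₀ + K₁) * |C| + 1) ^ 2, by positivity, fun n hn => ?_⟩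
  have hF : LoF (loA n) _ := (LoF.sum (BS n) fun β _ =>
    (loB_spec n β (Or.inl rfl)).add (loB_spec n β (Or.inr rfl))).mul (1 / 2)
  have hn' : (2 : ℝ) ≤ n := by exact_mod_cast hn
  have hL : 0 < Real.log n := Real.log_pos (by linarith)
  have hΛ : 0 < √(Real.log n ^ 3) := Real.sqrt_pos.2 (by positivity)
  have hw0 : ∀ β : ℕ, 0 ≤ wt β / β := fun β => div_nonneg (by linarith [one_le_wt β]) β.cast_nonneg
  have hw : ∑ β ∈ BS n, wt β / β ≤ |C| * Real.log n ^ 3 :=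
    ((Finset.sum_le_sum_of_subset_of_nonneg (Finset.filter_subset _ _) fun β _ _ => hw0 β).trans
      (hC n hn)).trans (mul_le_mul_of_nonneg_right (le_abs_self C) (by positivity))
  have b := (MainasmBd.sum (BS n) (r₀ := √(Real.log n ^ 3) * Real.log n ^ 3) (by positivity)
    fun β hβ => (h₀ n β hn hβ).add (h₁ n β hn hβ)).mul (u := fun _ => 1 / 2) continuous_const
    one_pos (fun _ => by norm_num)
  simp only [← add_mul, ← Finset.mul_sum, one_mul] at b
  refine ⟨hF.i1, hF.i2, fun x hx => ?_, ?_⟩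
  · rw [hF.eq, MT]
    congr 1
    refine Finset.sum_congr rfl fun β hβ => ?_
    have hβ1 : 1 ≤ β := (Finset.mem_Icc.1 (Finset.mem_filter.1 hβ).1).1
    rw [← mainasm_side_eq hx (Or.inl rfl), ← mainasm_side_eq hx (Or.inr rfl), ← Finset.sum_union]
    · congr 1
      ext q
      rw [Finset.mem_union, mainasm_mem_pos hβ1, mainasm_mem_neg hβ1, Finset.mem_filter, and_or_left]
    · rw [Finset.disjoint_left]
      intro q h1 h2
      rw [mainasm_mem_pos hβ1] at h1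
      rw [mainasm_mem_neg hβ1] at h2
      omega
  · simp only [hF.eq]
    refine b.le.trans ?_
    calc _ ≤ ((K₀ + K₁) * √(Real.log n ^ 3) * (|C| * Real.log n ^ 3)
          + √(Real.log n ^ 3) * Real.log n ^ 3) ^ 2 := by
          have := Finset.sum_nonneg fun β (_ : β ∈ BS n) => hw0 β
          gcongr
      _ = ((K₀ + K₁) * |C| + 1) ^ 2 * (√(Real.log n ^ 3) ^ 2 * Real.log n ^ 6) := by ring
      _ = _ := by
          rw [Real.sq_sqrt (by positivity)]
          ring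

/-- the sum of the chirps that are present on `0 < r < 2` -/
def loAr (n : ℕ) (r : ℝ) : ℂ :=
  ∑ β ∈ BS n, (∑ q ∈ mainasmQ n β 1, eC n β q * loT n β (-q) r
    + ∑ q ∈ mainasmQ n β (-1), -ep (1 / 4) * eC n β q * (starRingEnd ℂ) (loT n β (q - β) (2 - r)))

lemma loA_eq (n : ℕ) {r : ℝ} (h0 : 0 < r) (h2 : r < 2) : loA n ((r - 1) / 2) = loAr n r := by
  rw [loA, loAr, Finset.mul_sum]
  refine Finset.sum_congr rfl fun β hβ => ?_
  have hβ1 : 1 ≤ β := (Finset.mem_Icc.1 (Finset.mem_filter.1 hβ).1).1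
  have hβ' : (0 : ℝ) < β := by exact_mod_cast hβ1
  rw [loB, loB, mul_add, Finset.mul_sum, Finset.mul_sum]
  congr 1 <;> refine Finset.sum_congr rfl fun q hq => ?_
  · have hq' : (0 : ℝ) ≤ -q := by
      have := ((mainasm_mem_pos hβ1).1 hq).2
      exact_mod_cast (by omega : (0 : ℤ) ≤ -q)
    have e := lo_ev1 (N := n) hβ' hq' h0 h2
    rw [neg_neg] at e
    rw [lo_ev2 h0 h2]
    simp only [ofReal_one]
    linear_combination (1 / 2 * eC n β q) * e
  · have hq' : (0 : ℝ) ≤ q - β := by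
      have := ((mainasm_mem_neg hβ1).1 hq).2
      exact_mod_cast (by omega : (0 : ℤ) ≤ q - β)
    have e := lo_ev4 (N := n) hβ' hq' h0 h2
    rw [add_sub_cancel] at e
    rw [lo_ev3 h0 h2]
    simp only [ofReal_one, ofReal_neg]
    linear_combination (-1 / 2 * ep (1 / 4) * eC n β q) * e

lemma lo_eC_le (n : ℕ) {β : ℕ} (hβ : Odd β) (q : ℤ) : ‖eC n β q‖ ≤ √β := by
  have : NeZero β := ⟨hβ.pos.ne'⟩
  have hb : (0 : ℝ) < β := by exact_mod_cast hβ.pos
  have hs := Real.sqrt_pos.2 hb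
  rw [shmult_eC n hβ, multC]
  split_ifs
  · have e := norm_ep_real (q + n - q * β / 4)
    push_cast at e
    rw [norm_mul, norm_div, e, norm_real, Real.norm_of_nonneg hs.le]
    have h := norm_sum_le_of_le (Finset.univ : Finset (ZMod β)) (n := fun _ => (1 : ℝ))
      (f := fun k : ZMod β => ZMod.stdAddChar
        (-2⁻¹ * (q : ZMod β)⁻¹ * k ^ 2 + (n : ZMod β) * 2⁻¹ * (q : ZMod β)⁻¹))
      fun k _ => by rw [ZMod.stdAddChar_apply, Circle.norm_coe]
    rw [Finset.sum_const, Finset.card_univ, ZMod.card, nsmul_eq_mul, mul_one] at h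
    rw [div_mul_eq_mul_div, one_mul, div_le_iff₀ hs, Real.mul_self_sqrt hb.le]
    exact h
  · rw [norm_zero]; exact hs.le

lemma lo_eC_one (n : ℕ) (q : ℤ) : ‖eC n 1 q‖ = 1 := by
  rw [shmult_eC n odd_one, multC, if_pos (by simpa using isCoprime_one_right)]
  have e := norm_ep_real (q + n - q * (1 : ℕ) / 4)
  push_cast at e
  rw [Fintype.sum_unique, norm_mul, norm_div, ZMod.stdAddChar_apply, Circle.norm_coe]
  simpa using e

lemma lo_cnt {n : ℕ} {Y : ℝ} (hY : 0 ≤ Y) (hn : (n : ℝ) ≤ Y ^ 4) (S : ℕ → Finset ℤ)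
    (j : ℕ → ℤ → ℤ) (hinj : ∀ β, Function.Injective (j β))
    (hj : ∀ β ∈ BS n, ∀ q ∈ S β, 0 ≤ j β q ∧ j β q ≤ n ∧ β ^ 2 ≤ n) :
    ∑ β ∈ BS n, ∑ q ∈ S β, √β / (1 + (j β q : ℝ)) ≤ Y ^ 3 * (1 + Real.log (n + 1)) := by
  have hH : ∑ i ∈ Finset.range (n + 1), 1 / (1 + (i : ℝ)) ≤ 1 + Real.log (n + 1) := by
    have h := harmonic_le_one_add_log (n + 1)
    simp only [harmonic] at h
    push_cast at h
    simpa [add_comm] using h
  have hL : 0 ≤ 1 + Real.log (n + 1) := by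
    linarith [Real.log_nonneg (show (1 : ℝ) ≤ n + 1 by linarith [Nat.cast_nonneg (α := ℝ) n])]
  have h1 : ∀ β ∈ BS n, ∑ q ∈ S β, √β / (1 + (j β q : ℝ))
      ≤ if β ∈ Finset.Icc 1 ⌊Y ^ 2⌋₊ then Y * (1 + Real.log (n + 1)) else 0 := by
    intro β hβ
    rcases (S β).eq_empty_or_nonempty with h | ⟨q₀, hq₀⟩
    · rw [h, Finset.sum_empty]
      split_ifs <;> positivity
    have a1 : (β : ℝ) ^ 2 ≤ (Y ^ 2) ^ 2 := by
      have : ((β ^ 2 : ℕ) : ℝ) ≤ n := by exact_mod_cast (hj β hβ q₀ hq₀).2.2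
      push_cast at this
      nlinarith
    have a2 : (β : ℝ) ≤ Y ^ 2 := (pow_le_pow_iff_left₀ (by positivity) (by positivity) two_ne_zero).1 a1
    have a3 : √β ≤ Y := Real.sqrt_le_iff.2 ⟨hY, a2⟩
    rw [if_pos (Finset.mem_Icc.2 ⟨(Finset.mem_Icc.1 (Finset.mem_filter.1 hβ).1).1,
      Nat.le_floor a2⟩)]
    have a4 : ∑ q ∈ S β, 1 / (1 + (j β q : ℝ)) ≤ ∑ i ∈ Finset.range (n + 1), 1 / (1 + (i : ℝ)) := by
      have e : ∑ q ∈ S β, 1 / (1 + (j β q : ℝ))
          = ∑ i ∈ (S β).image fun q => (j β q).toNat, 1 / (1 + (i : ℝ)) := by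
        rw [Finset.sum_image fun a ha b hb hab => hinj β (by
          have := (hj β hβ a ha).1
          have := (hj β hβ b hb).1
          omega)]
        refine Finset.sum_congr rfl fun q hq => ?_
        have : (((j β q).toNat : ℤ) : ℝ) = j β q := by rw [Int.toNat_of_nonneg (hj β hβ q hq).1]
        rw [← this, Int.cast_natCast]
      rw [e]
      refine Finset.sum_le_sum_of_subset_of_nonneg (fun i hi => ?_) fun i _ _ => by positivity
      obtain ⟨q, hq, rfl⟩ := Finset.mem_image.1 hi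
      have := (hj β hβ q hq).2.1
      rw [Finset.mem_range]
      omega
    calc _ = √β * ∑ q ∈ S β, 1 / (1 + (j β q : ℝ)) := by
          rw [Finset.mul_sum]
          exact Finset.sum_congr rfl fun q _ => by ring
      _ ≤ _ := mul_le_mul a3 (a4.trans hH) (Finset.sum_nonneg fun q hq => by
          have : (0 : ℝ) ≤ j β q := by exact_mod_cast (hj β hβ q hq).1
          positivity) hY
  refine (Finset.sum_le_sum h1).trans ?_
  rw [Finset.sum_ite_mem, Finset.sum_const, nsmul_eq_mul]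
  have a5 : ((BS n ∩ Finset.Icc 1 ⌊Y ^ 2⌋₊).card : ℝ) ≤ Y ^ 2 := by
    have := Finset.card_le_card (Finset.inter_subset_right (s₁ := BS n) (s₂ := Finset.Icc 1 ⌊Y ^ 2⌋₊))
    rw [Nat.card_Icc, Nat.add_sub_cancel] at this
    exact (Nat.cast_le.2 this).trans (Nat.floor_le (by positivity))
  calc _ ≤ Y ^ 2 * (Y * (1 + Real.log (n + 1))) := by gcongr
    _ = _ := by ring

lemma lo_QS {n β : ℕ} {q : ℤ} (hq : q ∈ QS n β) (h : q ≤ 0 ∨ (β : ℤ) < q) :
    -q ≤ n ∧ q ≤ n ∧ β ^ 2 ≤ n := by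
  simp only [QS, Finset.mem_filter, Finset.mem_Icc] at hq
  refine ⟨by omega, by omega, ?_⟩
  have h1 : (β : ℤ) ≤ |2 * q - β| := by
    rcases h with h | h
    · exact le_abs.2 (Or.inr (by omega))
    · exact le_abs.2 (Or.inl (by omega))
  have h2 := (mul_le_mul_of_nonneg_left h1 (Int.natCast_nonneg β)).trans hq.2
  have h3 : ((β ^ 2 : ℕ) : ℤ) ≤ n := by push_cast; linarith
  exact_mod_cast h3

/-! The test function: the chirps of the parabolic family, cut off to the intervals on which their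
local frequency is between `n/4` and `4n/9`. -/

def loI (k : ℕ) : Set ℝ := Ioc (1 / (2 * k)) (1 / k)

def loU (n k : ℕ) (r : ℝ) : ℂ := eC n 1 (-k) * loT n 1 k r

def loV (n Q : ℕ) (r : ℝ) : ℂ := ∑ k ∈ Finset.Icc 2 Q, (loI k).indicator (loU n k) r

def loD (n k : ℕ) : ℝ := ∫ r in loI k, ‖loT n 1 k r‖ ^ 2

lemma loI_meas (k : ℕ) : MeasurableSet (loI k) := measurableSet_Ioc

lemma loI_mem {k : ℕ} (hk : 2 ≤ k) {r : ℝ} (hr : r ∈ loI k) : 0 < r ∧ r ≤ 1 / 2 := by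
  have hk' : (2 : ℝ) ≤ k := by exact_mod_cast hk
  exact ⟨lt_trans (by positivity) hr.1, hr.2.trans (one_div_le_one_div_of_le two_pos hk')⟩

lemma lo_intOn {F : ℝ → ℂ} (hm : Measurable F) {k : ℕ} {M : ℝ} (hb : ∀ r ∈ loI k, ‖F r‖ ≤ M) :
    IntegrableOn F (loI k) :=
  Measure.integrableOn_of_bounded (M := M) measure_Ioc_lt_top.ne hm.aestronglyMeasurable
    ((ae_restrict_mem (loI_meas k)).mono hb)

lemma lo_mconj {F : ℝ → ℂ} (hm : Measurable F) : Measurable fun r => (starRingEnd ℂ) (F r) :=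
  continuous_conj.measurable.comp hm

lemma loU_meas (n k : ℕ) : Measurable (loU n k) := (lo_meas _ _ _).const_mul _

lemma loU_le (n k : ℕ) {r : ℝ} (hr : 0 ≤ r) : ‖loU n k r‖ ≤ 1 := by
  rw [loU, norm_mul, lo_eC_one, one_mul]
  exact lo_norm_le (by have : 0 ≤ (k : ℝ) * r := by positivity
                       linarith)

lemma lo_intU {F : ℝ → ℂ} (hm : Measurable F) (n : ℕ) {k : ℕ} (hk : 2 ≤ k) {M : ℝ}
    (hb : ∀ r, 0 < r → r ≤ 1 / 2 → ‖F r‖ ≤ M) :
    IntegrableOn (fun r => F r * (starRingEnd ℂ) (loU n k r)) (loI k) :=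
  lo_intOn (M := M) (hm.fun_mul (lo_mconj (loU_meas n k))) fun r hr => by
    obtain ⟨h1, h2⟩ := loI_mem hk hr
    rw [norm_mul, RCLike.norm_conj]
    exact (mul_le_of_le_one_right (norm_nonneg _) (loU_le n k h1.le)).trans (hb r h1 h2)

lemma lo_pairV (n Q : ℕ) {F : ℝ → ℂ}
    (hF : ∀ k ∈ Finset.Icc 2 Q, IntegrableOn (fun r => F r * (starRingEnd ℂ) (loU n k r)) (loI k)) :
    ∫ r, F r * (starRingEnd ℂ) (loV n Q r)
      = ∑ k ∈ Finset.Icc 2 Q, ∫ r in loI k, F r * (starRingEnd ℂ) (loU n k r) := by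
  have e : ∀ r, F r * (starRingEnd ℂ) (loV n Q r) = ∑ k ∈ Finset.Icc 2 Q,
      (loI k).indicator (fun r => F r * (starRingEnd ℂ) (loU n k r)) r := fun r => by
    rw [loV, map_sum, Finset.mul_sum]
    refine Finset.sum_congr rfl fun k _ => ?_
    by_cases h : r ∈ loI k
    · rw [indicator_of_mem h, indicator_of_mem h]
    · rw [indicator_of_notMem h, indicator_of_notMem h, map_zero, mul_zero]
  simp only [e]
  rw [integral_finsetSum _ fun k hk => (hF k hk).integrable_indicator (loI_meas k)]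
  exact Finset.sum_congr rfl fun k _ => integral_indicator (loI_meas k)

lemma lo_dg (n k : ℕ) : ∫ r in loI k, loU n k r * (starRingEnd ℂ) (loU n k r) = loD n k := by
  rw [loD, ← integral_complex_ofReal]
  refine integral_congr_ae (Eventually.of_forall fun r => ?_)
  simp only [mul_conj, normSq_eq_norm_sq]
  rw [loU, norm_mul, lo_eC_one, one_mul]

lemma lo_coef (n k : ℕ) (c : ℂ) (F : ℝ → ℂ) (s : Set ℝ) :
    ‖∫ r in s, c * F r * (starRingEnd ℂ) (loU n k r)‖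
      = ‖c‖ * ‖∫ r in s, F r * (starRingEnd ℂ) (loT n 1 k r)‖ := by
  have e : ∀ r, c * F r * (starRingEnd ℂ) (loU n k r)
      = c * (starRingEnd ℂ) (eC n 1 (-k)) * (F r * (starRingEnd ℂ) (loT n 1 k r)) := fun r => by
    rw [loU, map_mul]; ring
  simp only [e]
  rw [integral_const_mul, norm_mul, norm_mul, RCLike.norm_conj, lo_eC_one, mul_one]

lemma lo_E1 {n k : ℕ} {Y : ℝ} (hY : 0 ≤ Y) (hn : (n : ℝ) ≤ Y ^ 4) (hk : 2 ≤ k) (hkn : 2 * k + 1 ≤ n) :
    IntegrableOn (fun r => loAr n r * (starRingEnd ℂ) (loU n k r)) (loI k) ∧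
    ‖(∫ r in loI k, loAr n r * (starRingEnd ℂ) (loU n k r)) - loD n k‖
      ≤ 24 * k ^ 2 / n * (Y ^ 3 * (1 + Real.log (n + 1))) := by
  have hk' : (2 : ℝ) ≤ k := by exact_mod_cast hk
  have hN : (0 : ℝ) < n := by exact_mod_cast (by omega : 0 < n)
  have hβ : ∀ β ∈ BS n, 1 ≤ β ∧ Odd β := fun β h =>
    ⟨(Finset.mem_Icc.1 (Finset.mem_filter.1 h).1).1, (Finset.mem_filter.1 h).2⟩
  have iP : ∀ β ∈ BS n, ∀ q ∈ mainasmQ n β 1, IntegrableOn
      (fun r => eC n β q * loT n β (-q) r * (starRingEnd ℂ) (loU n k r)) (loI k) := by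
    intro β h q hq
    refine lo_intU (M := ‖eC n β q‖) ((lo_meas _ _ _).const_mul _) n hk fun r h1 _ => ?_
    have a1 : (1 : ℝ) ≤ β := by exact_mod_cast (hβ β h).1
    have a2 : (q : ℝ) ≤ 0 := by exact_mod_cast ((mainasm_mem_pos (hβ β h).1).1 hq).2
    rw [norm_mul]
    exact mul_le_of_le_one_right (norm_nonneg _) (lo_norm_le (by nlinarith))
  have iM : ∀ β ∈ BS n, ∀ q ∈ mainasmQ n β (-1), IntegrableOn (fun r => -ep (1 / 4) * eC n β q
      * (starRingEnd ℂ) (loT n β (q - β) (2 - r)) * (starRingEnd ℂ) (loU n k r)) (loI k) := by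
    intro β h q hq
    refine lo_intU (M := ‖-ep (1 / 4) * eC n β q‖) ((lo_mconj ((lo_meas _ _ _).comp
      (measurable_id.const_sub 2))).const_mul _) n hk fun r _ h1 => ?_
    have a1 : (1 : ℝ) ≤ β := by exact_mod_cast (hβ β h).1
    have a2 : (β : ℝ) < q := by exact_mod_cast ((mainasm_mem_neg (hβ β h).1).1 hq).2
    have a3 : 1 ≤ (β : ℝ) + (q - β) * (2 - r) := by nlinarith
    rw [norm_mul, RCLike.norm_conj]
    exact mul_le_of_le_one_right (norm_nonneg _) (lo_norm_le a3)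
  have e : ∀ r, loAr n r * (starRingEnd ℂ) (loU n k r) = ∑ β ∈ BS n,
      (∑ q ∈ mainasmQ n β 1, eC n β q * loT n β (-q) r * (starRingEnd ℂ) (loU n k r)
      + ∑ q ∈ mainasmQ n β (-1), -ep (1 / 4) * eC n β q
        * (starRingEnd ℂ) (loT n β (q - β) (2 - r)) * (starRingEnd ℂ) (loU n k r)) := fun r => by
    simp only [loAr, Finset.sum_mul, add_mul]
  simp only [e]
  have i1 := fun β h => (integrable_finsetSum _ (iP β h)).fun_add (integrable_finsetSum _ (iM β h))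
  refine ⟨integrable_finsetSum _ i1, ?_⟩
  have h1 : 1 ∈ BS n := Finset.mem_filter.2 ⟨Finset.mem_Icc.2 ⟨le_rfl, by omega⟩, odd_one⟩
  have h2 : (-k : ℤ) ∈ mainasmQ n 1 1 := (mainasm_mem_pos le_rfl).2 ⟨by
    simp only [QS, Finset.mem_filter, Finset.mem_Icc]
    refine ⟨⟨by omega, by omega⟩, ?_⟩
    rw [abs_of_nonpos (by omega)]
    omega, by omega⟩
  have ed : (loD n k : ℂ) = ∑ β ∈ BS n, ∑ q ∈ mainasmQ n β 1,
      if β = 1 ∧ q = -k then (loD n k : ℂ) else 0 := by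
    rw [Finset.sum_eq_single_of_mem 1 h1 fun β _ h => Finset.sum_eq_zero fun q _ =>
      if_neg fun h' => h h'.1, Finset.sum_eq_single_of_mem _ h2 fun q _ h =>
      if_neg fun h' => h h'.2, if_pos ⟨rfl, rfl⟩]
  rw [integral_finsetSum _ i1, ed, ← Finset.sum_sub_distrib]
  have c1 := lo_cnt hY hn (fun β => mainasmQ n β 1) (fun _ q => -q) (fun _ => neg_injective)
    fun β h q hq => by
      obtain ⟨a1, a2⟩ := (mainasm_mem_pos (hβ β h).1).1 hq
      obtain ⟨b1, -, b3⟩ := lo_QS a1 (Or.inl a2)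
      exact ⟨by omega, b1, b3⟩
  have c2 := lo_cnt hY hn (fun β => mainasmQ n β (-1)) (fun β q => q - β)
    (fun β => sub_left_injective) fun β h q hq => by
      obtain ⟨a1, a2⟩ := (mainasm_mem_neg (hβ β h).1).1 hq
      obtain ⟨-, b2, b3⟩ := lo_QS a1 (Or.inr a2)
      exact ⟨by omega, by omega, b3⟩
  push_cast at c1 c2
  have hc : (0 : ℝ) ≤ 12 * k ^ 2 / n := by positivity
  refine (norm_sum_le_of_le _ (n := fun β => 12 * k ^ 2 / n * (∑ q ∈ mainasmQ n β 1,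
    √β / (1 + -(q : ℝ)) + ∑ q ∈ mainasmQ n β (-1), √β / (1 + ((q : ℝ) - β)))) fun β h => ?_).trans ?_
  · rw [integral_add (integrable_finsetSum _ (iP β h)) (integrable_finsetSum _ (iM β h)),
      integral_finsetSum _ (iP β h), integral_finsetSum _ (iM β h), add_sub_right_comm,
      ← Finset.sum_sub_distrib, mul_add, Finset.mul_sum, Finset.mul_sum]
    have a1 : (1 : ℝ) ≤ β := by exact_mod_cast (hβ β h).1
    refine (norm_add_le _ _).trans (add_le_add (norm_sum_le_of_le _ fun q hq => ?_)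
      (norm_sum_le_of_le _ fun q hq => ?_))
    · have a2 := ((mainasm_mem_pos (hβ β h).1).1 hq).2
      have a3 : (0 : ℝ) ≤ -q := by exact_mod_cast (by omega : (0 : ℤ) ≤ -q)
      split_ifs with hd
      · obtain ⟨rfl, rfl⟩ := hd
        have := lo_dg n k
        simp only [loU] at this ⊢
        simp only [Nat.cast_one, Int.cast_neg, Int.cast_natCast, neg_neg, this, sub_self, norm_zero]
        positivity
      · rw [sub_zero, lo_coef]
        have a4 := lo_offP (β := β) hN hk' a3 (by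
          rcases (hβ β h).1.eq_or_lt with h0 | h0
          · refine Or.inl ⟨by rw [← h0, Nat.cast_one], ?_⟩
            have : (k : ℤ) - -q ≠ 0 := fun h' => hd ⟨h0.symm, by omega⟩
            exact_mod_cast Int.one_le_abs this
          · obtain ⟨m, hm⟩ := (hβ β h).2
            exact Or.inr (by exact_mod_cast (by omega : 3 ≤ β))) le_rfl le_rfl
        refine (mul_le_mul (lo_eC_le n (hβ β h).2 q) a4 (norm_nonneg _) (Real.sqrt_nonneg _)).trans
          (le_of_eq ?_)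
        field_simp
    · have a2 := ((mainasm_mem_neg (hβ β h).1).1 hq).2
      have a3 : (1 : ℝ) ≤ q - β := by exact_mod_cast (by omega : (1 : ℤ) ≤ q - β)
      have a5 : ‖-ep (1 / 4) * eC n β q‖ ≤ √β := by
        have c := norm_ep_real (1 / 4)
        push_cast at c
        rw [norm_mul, norm_neg, c, one_mul]
        exact lo_eC_le n (hβ β h).2 q
      rw [lo_coef]
      refine (mul_le_mul a5 (lo_offM hN hk' a3 a1 le_rfl le_rfl) (norm_nonneg _)
        (Real.sqrt_nonneg _)).trans (le_of_eq ?_)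
      field_simp
  · rw [← Finset.mul_sum, Finset.sum_add_distrib]
    refine (mul_le_mul_of_nonneg_left (add_le_add c1 c2) hc).trans (le_of_eq ?_)
    ring

lemma loV_meas (n Q : ℕ) : Measurable (loV n Q) :=
  Finset.measurable_sum _ fun k _ => (loU_meas n k).indicator (loI_meas k)

lemma loV_int (n Q : ℕ) : Integrable (loV n Q) :=
  integrable_finsetSum _ fun k hk => (lo_intOn (loU_meas n k) fun _ hr =>
    loU_le n k (loI_mem (Finset.mem_Icc.1 hk).1 hr).1.le).integrable_indicator (loI_meas k)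

lemma loV_le (n Q : ℕ) (r : ℝ) : ‖loV n Q r‖ ≤ Q := by
  refine (norm_sum_le_of_le _ (n := fun _ => (1 : ℝ)) fun k hk => ?_).trans ?_
  · by_cases h : r ∈ loI k
    · rw [indicator_of_mem h]
      exact loU_le n k (loI_mem (Finset.mem_Icc.1 hk).1 h).1.le
    · rw [indicator_of_notMem h, norm_zero]
      exact zero_le_one
  · rw [Finset.sum_const, Nat.card_Icc, nsmul_eq_mul, mul_one]
    exact_mod_cast (by omega : Q + 1 - 2 ≤ Q)

lemma loV_zero (n Q : ℕ) {r : ℝ} (h : ¬(0 < r ∧ r ≤ 1 / 2)) : loV n Q r = 0 :=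
  Finset.sum_eq_zero fun _ hk => indicator_of_notMem
    (fun h' => h (loI_mem (Finset.mem_Icc.1 hk).1 h')) _

lemma lo_E2 {n Q k : ℕ} (hn : 0 < n) (hk : k ∈ Finset.Icc 2 Q) :
    ‖(∫ r in loI k, loV n Q r * (starRingEnd ℂ) (loU n k r)) - loD n k‖ ≤ Q * (12 * k ^ 2 / n) := by
  have hk2 := (Finset.mem_Icc.1 hk).1
  have hk' : (2 : ℝ) ≤ k := by exact_mod_cast hk2
  have hN : (0 : ℝ) < n := by exact_mod_cast hn
  have e : ∀ r, loV n Q r * (starRingEnd ℂ) (loU n k r) = ∑ l ∈ Finset.Icc 2 Q,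
      (loI l).indicator (fun r => loU n l r * (starRingEnd ℂ) (loU n k r)) r := fun r => by
    rw [loV, Finset.sum_mul]
    exact Finset.sum_congr rfl fun l _ => (indicator_mul_left (loI l) (loU n l)
      fun r => (starRingEnd ℂ) (loU n k r)).symm
  have ed : (loD n k : ℂ) = ∑ l ∈ Finset.Icc 2 Q, if l = k then (loD n k : ℂ) else 0 := by
    rw [Finset.sum_ite_eq', if_pos hk]
  simp only [e]
  rw [integral_finsetSum _ fun l _ => (lo_intU (M := 1) (loU_meas n l) n hk2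
    fun r h _ => loU_le n l h.le).indicator (loI_meas l), ed, ← Finset.sum_sub_distrib]
  refine (norm_sum_le_of_le _ (n := fun _ => (12 * k ^ 2 / n : ℝ)) fun l _ => ?_).trans ?_
  · rw [setIntegral_indicator (loI_meas l)]
    split_ifs with hd
    · rw [hd, inter_self, lo_dg, sub_self, norm_zero]
      positivity
    · rw [sub_zero, loI, loI, Ioc_inter_Ioc]
      simp only [loU] 
      have := lo_coef n k (eC n 1 (-l)) (loT n 1 l) (Ioc (1 / (2 * (k : ℝ)) ⊔ 1 / (2 * l))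
        (1 / k ⊓ 1 / l))
      simp only [loU] at this
      rw [this, lo_eC_one, one_mul]
      refine (lo_offP hN hk' (Nat.cast_nonneg l) (Or.inl ⟨rfl, ?_⟩) le_sup_left inf_le_left).trans ?_
      · have : (k : ℤ) - l ≠ 0 := fun h' => hd (by omega)
        exact_mod_cast Int.one_le_abs this
      · gcongr
        exact le_mul_of_one_le_right hN.le (by linarith [Nat.cast_nonneg (α := ℝ) l])
  · rw [Finset.sum_const, Nat.card_Icc, nsmul_eq_mul]
    gcongr
    omega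

lemma lo_small {n Q : ℕ} (hn : 0 < n) {x : ℝ} (hx : x ≤ n / 8) :
    ‖∫ r, loV n Q r * ep ((-(x * (r - 1)) : ℝ))‖ ≤ Q * (4 / (n / 4 - x)) := by
  have hN : (0 : ℝ) < n := by exact_mod_cast hn
  have hX : 0 < (n : ℝ) / 4 - x := by linarith
  have e : ∀ r, loV n Q r * ep ((-(x * (r - 1)) : ℝ)) = ∑ k ∈ Finset.Icc 2 Q,
      (loI k).indicator (fun r => loU n k r * ep ((-(x * (r - 1)) : ℝ))) r := fun r => by
    rw [loV, Finset.sum_mul]
    exact Finset.sum_congr rfl fun l _ => (indicator_mul_left (loI l) (loU n l)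
      fun r => ep ((-(x * (r - 1)) : ℝ))).symm
  have hm : Measurable fun r : ℝ => ep ((-(x * (r - 1)) : ℝ)) :=
    continuous_ep.measurable.comp (by fun_prop)
  simp only [e]
  rw [integral_finsetSum _ fun k hk => (lo_intOn (M := 1) ((loU_meas n k).fun_mul hm) fun r hr => by
      rw [norm_mul, norm_ep_real, mul_one]
      exact loU_le n k (loI_mem (Finset.mem_Icc.1 hk).1 hr).1.le).integrable_indicator (loI_meas k)]
  refine (norm_sum_le_of_le _ (n := fun _ => (4 / (n / 4 - x) : ℝ)) fun k hk => ?_).trans ?_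
  · have hk' : (2 : ℝ) ≤ k := by exact_mod_cast (Finset.mem_Icc.1 hk).1
    have hab : 1 / (2 * (k : ℝ)) ≤ 1 / k := one_div_le_one_div_of_le (by linarith) (by linarith)
    have h := lo_one (k := k) hab hN (by linarith) hx (by positivity) (le_of_eq (by field_simp))
      (fun r => n / 1 * r / (1 + k * r) + -(x * (r - 1))) fun t ht => by
        have h0 : 0 < t := lt_of_lt_of_le (by positivity) ht.1
        have d := (lo_phase (N := n) (β := 1) (j := k) (r := t) one_ne_zero (by positivity)).fun_add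
          (((hasDerivAt_id t).sub_const 1).const_mul x).fun_neg
        simpa [sub_eq_add_neg] using d
    rw [integral_indicator (loI_meas k), loI, ← intervalIntegral.integral_of_le hab]
    simp only [loU, loT, mul_assoc, ← ep_add, ← ofReal_add]
    rw [intervalIntegral.integral_const_mul, norm_mul, lo_eC_one, one_mul]
    exact h
  · rw [Finset.sum_const, Nat.card_Icc, nsmul_eq_mul]
    gcongr
    omega

/-! The lower bound: pair the basis function with the Fourier transform of the test function. -/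

lemma lo_aff (F : ℝ → ℂ) : ∫ v, F (2 * v + 1) = 1 / 2 * ∫ r, F r := by
  rw [Measure.integral_comp_mul_left (fun y => F (y + 1)) 2, integral_add_right_eq_self, real_smul]
  norm_num

def loW (n Q : ℕ) (v : ℝ) : ℂ := loV n Q (2 * v + 1)

lemma loW_int (n Q : ℕ) : Integrable (loW n Q) :=
  ((loV_int n Q).comp_add_right 1).comp_mul_left' two_ne_zero

lemma loW_sq (n Q : ℕ) : Integrable fun v => ‖loW n Q v‖ ^ 2 :=
  ((loW_int n Q).norm.const_mul Q).mono' ((loW_int n Q).1.norm.pow 2)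
    (Eventually.of_forall fun v => by
      rw [Real.norm_of_nonneg (by positivity), sq]
      exact mul_le_mul_of_nonneg_right (loV_le n Q _) (norm_nonneg _))

lemma lo_P {n Q : ℕ} {Y : ℝ} (hY : 0 ≤ Y) (hn : (n : ℝ) ≤ Y ^ 4) (hQ : 2 ≤ Q → 2 * Q + 1 ≤ n) :
    ∑ k ∈ Finset.Icc 2 Q, loD n k - Q * (24 * Q ^ 2 / n * (Y ^ 3 * (1 + Real.log (n + 1))))
      ≤ 2 * ‖∫ v, loA n v * (starRingEnd ℂ) (loW n Q v)‖ := by
  have e : ∀ v : ℝ, loA n v * (starRingEnd ℂ) (loW n Q v)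
      = (fun r => loAr n r * (starRingEnd ℂ) (loV n Q r)) (2 * v + 1) := fun v => by
    simp only [loW]
    by_cases h : 0 < 2 * v + 1 ∧ 2 * v + 1 ≤ 1 / 2
    · rw [← loA_eq n h.1 (by linarith [h.2])]
      congr 2
      ring
    · rw [loV_zero n Q h, map_zero, mul_zero, mul_zero]
  have hE := fun k (hk : k ∈ Finset.Icc 2 Q) => lo_E1 hY hn (Finset.mem_Icc.1 hk).1 (by
    have := Finset.mem_Icc.1 hk
    omega)
  have hL : 0 ≤ 1 + Real.log (n + 1) := by
    linarith [Real.log_nonneg (show (1 : ℝ) ≤ n + 1 by linarith [Nat.cast_nonneg (α := ℝ) n])]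
  rw [integral_congr_ae (Eventually.of_forall e),
    lo_aff fun r => loAr n r * (starRingEnd ℂ) (loV n Q r), lo_pairV n Q fun k hk => (hE k hk).1,
    norm_mul]
  set S := ∑ k ∈ Finset.Icc 2 Q, ∫ r in loI k, loAr n r * (starRingEnd ℂ) (loU n k r)
  have h1 : ‖S - ((∑ k ∈ Finset.Icc 2 Q, loD n k : ℝ) : ℂ)‖
      ≤ Q * (24 * Q ^ 2 / n * (Y ^ 3 * (1 + Real.log (n + 1)))) := by
    rw [ofReal_sum, ← Finset.sum_sub_distrib]
    refine (norm_sum_le_of_le _ (n := fun _ => 24 * Q ^ 2 / n * (Y ^ 3 * (1 + Real.log (n + 1))))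
      fun k hk => (hE k hk).2.trans ?_).trans ?_
    · have : (k : ℝ) ≤ Q := by exact_mod_cast (Finset.mem_Icc.1 hk).2
      gcongr
    · rw [Finset.sum_const, Nat.card_Icc, nsmul_eq_mul]
      gcongr
      omega
  have h2 := norm_sub_norm_le ((∑ k ∈ Finset.Icc 2 Q, loD n k : ℝ) : ℂ) S
  rw [norm_sub_rev, norm_real, Real.norm_eq_abs] at h2
  have h3 := le_abs_self (∑ k ∈ Finset.Icc 2 Q, loD n k)
  have h4 : ‖(1 / 2 : ℂ)‖ = 1 / 2 := by simp
  rw [h4]
  linarith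

lemma lo_N {n Q : ℕ} (hn : 0 < n) : 2 * ∫ v, ‖loW n Q v‖ ^ 2
    ≤ ∑ k ∈ Finset.Icc 2 Q, loD n k + Q * (Q * (12 * Q ^ 2 / n)) := by
  have e : (((∫ v, ‖loW n Q v‖ ^ 2 : ℝ)) : ℂ)
      = ∫ v : ℝ, (fun r => loV n Q r * (starRingEnd ℂ) (loV n Q r)) (2 * v + 1) := by
    rw [← integral_complex_ofReal]
    simp only [mul_conj, normSq_eq_norm_sq, loW]
  rw [lo_aff fun r => loV n Q r * (starRingEnd ℂ) (loV n Q r), lo_pairV n Q fun k hk =>
    lo_intU (M := Q) (loV_meas n Q) n (Finset.mem_Icc.1 hk).1 fun r _ _ => loV_le n Q r] at e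
  set S := ∑ k ∈ Finset.Icc 2 Q, ∫ r in loI k, loV n Q r * (starRingEnd ℂ) (loU n k r)
  have h1 : ‖S - ((∑ k ∈ Finset.Icc 2 Q, loD n k : ℝ) : ℂ)‖ ≤ Q * (Q * (12 * Q ^ 2 / n)) := by
    rw [ofReal_sum, ← Finset.sum_sub_distrib]
    refine (norm_sum_le_of_le _ (n := fun _ => Q * (12 * Q ^ 2 / n))
      fun k hk => (lo_E2 hn hk).trans ?_).trans ?_
    · have : (k : ℝ) ≤ Q := by exact_mod_cast (Finset.mem_Icc.1 hk).2
      gcongr
    · rw [Finset.sum_const, Nat.card_Icc, nsmul_eq_mul]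
      gcongr
      omega
  have e2 : S = ((2 * ∫ v, ‖loW n Q v‖ ^ 2 : ℝ) : ℂ) := by
    rw [ofReal_mul, e]
    push_cast
    ring
  rw [e2, ← ofReal_sub, norm_real, Real.norm_eq_abs] at h1
  linarith [le_abs_self (2 * (∫ v, ‖loW n Q v‖ ^ 2) - ∑ k ∈ Finset.Icc 2 Q, loD n k)]

lemma lo_w {n Q : ℕ} (hn : 0 < n) {x : ℝ} (hx : x ≤ n / 8) :
    ‖𝓕 (loW n Q) x‖ ≤ 2 * Q / (n / 4 - x) := by
  have e : 𝓕 (loW n Q) x
      = ∫ v : ℝ, (fun r : ℝ => loV n Q r * ep ((-(x * (r - 1)) : ℝ))) (2 * v + 1) := by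
    rw [planch_eq]
    congr 1
    funext v
    simp only [loW]
    congr 2
    push_cast
    ring
  have h4 : ‖(1 / 2 : ℂ)‖ = 1 / 2 := by simp
  rw [e, lo_aff fun r : ℝ => loV n Q r * ep ((-(x * (r - 1)) : ℝ)), norm_mul, h4]
  refine (mul_le_mul_of_nonneg_left (lo_small hn hx) (by norm_num)).trans (le_of_eq ?_)
  ring

lemma lo_D (n Q : ℕ) : (Real.log (Q + 1) - 1) / 16 ≤ ∑ k ∈ Finset.Icc 2 Q, loD n k := by
  have h1 := log_add_one_le_harmonic Q
  rw [harmonic_eq_sum_Icc] at h1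
  push_cast at h1
  have h2 : ∑ k ∈ Finset.Icc 1 Q, ((k : ℝ))⁻¹ ≤ 1 + ∑ k ∈ Finset.Icc 2 Q, ((k : ℝ))⁻¹ := by
    have : Finset.Icc 1 Q ⊆ insert 1 (Finset.Icc 2 Q) := fun k hk => by
      simp only [Finset.mem_insert, Finset.mem_Icc] at hk ⊢
      omega
    refine (Finset.sum_le_sum_of_subset_of_nonneg this fun _ _ _ => by positivity).trans ?_
    rw [Finset.sum_insert (by simp)]
    simp
  have h3 : ∑ k ∈ Finset.Icc 2 Q, ((k : ℝ))⁻¹ ≤ 16 * ∑ k ∈ Finset.Icc 2 Q, loD n k := by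
    rw [Finset.mul_sum]
    refine Finset.sum_le_sum fun k hk => ?_
    have hk' : (2 : ℝ) ≤ k := by exact_mod_cast (Finset.mem_Icc.1 hk).1
    refine le_trans (le_of_eq ?_) (mul_le_mul_of_nonneg_left (lo_diag (N := n) (k := k)
      (by linarith)) (by norm_num : (0 : ℝ) ≤ 16))
    field_simp
  linarith

lemma lo_ineq {M w : ℝ → ℂ} {X η : ℝ} {a b f e u : ℝ → ℝ} (hη : 0 < η)
    (hM : Integrable fun x => ‖M x‖ ^ 2) (hw : Integrable fun x => ‖w x‖ ^ 2)
    (hf : Integrable f) (he : Integrable e) (hu : Integrable u)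
    (f0 : ∀ x, 0 ≤ f x) (e0 : ∀ x, 0 ≤ e x) (u0 : ∀ x, 0 ≤ u x)
    (h1 : ∀ x, X < x → ‖M x‖ ≤ a x + b x ∧ a x ^ 2 ≤ f x ∧ b x ^ 2 ≤ e x)
    (h2 : ∀ x, x ≤ X → ‖w x‖ ^ 2 ≤ u x) :
    ‖∫ x, M x * (starRingEnd ℂ) (w x)‖ ≤ 2 * (∫ x, f x) + 2 * (∫ x, e x)
      + 1 / 4 * (∫ x, ‖w x‖ ^ 2) + η * (∫ x, ‖M x‖ ^ 2) + 1 / η * ∫ x, u x := by
  have i1 := (hf.const_mul 2).fun_add (he.const_mul 2)
  have i2 := i1.fun_add (hw.const_mul (1 / 4))
  have i3 := i2.fun_add (hM.const_mul η)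
  have i4 := i3.fun_add (hu.const_mul (1 / η))
  refine (norm_integral_le_of_norm_le i4 (Eventually.of_forall fun x => ?_)).trans (le_of_eq ?_)
  · rw [norm_mul, RCLike.norm_conj]
    have p1 := f0 x
    have p2 := e0 x
    have p3 : 0 ≤ 1 / η * u x := mul_nonneg (by positivity) (u0 x)
    have p4 : 0 ≤ η * ‖M x‖ ^ 2 := by positivity
    rcases lt_or_ge X x with h | h
    · obtain ⟨q1, q2, q3⟩ := h1 x h
      have q4 := mul_le_mul_of_nonneg_right q1 (norm_nonneg (w x))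
      nlinarith [sq_nonneg (4 * a x - ‖w x‖), sq_nonneg (4 * b x - ‖w x‖)]
    · have q1 := mul_le_mul_of_nonneg_left (h2 x h) (show 0 ≤ 1 / η by positivity)
      have q2 : η * ‖M x‖ ^ 2 + 1 / η * ‖w x‖ ^ 2 - 2 * (‖M x‖ * ‖w x‖)
          = (η * ‖M x‖ - ‖w x‖) ^ 2 / η := by
        field_simp
        ring
      have q3 : 0 ≤ (η * ‖M x‖ - ‖w x‖) ^ 2 / η := by positivity
      have q4 : 0 ≤ ‖M x‖ * ‖w x‖ := by positivity
      have q5 : 0 ≤ ‖w x‖ ^ 2 := by positivity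
      linarith
  · rw [integral_add i3 (hu.const_mul _), integral_add i2 (hM.const_mul _),
      integral_add i1 (hw.const_mul _), integral_add (hf.const_mul _) (he.const_mul _)]
    simp only [integral_const_mul]

lemma lo_err : ∃ C : ℝ, 0 ≤ C ∧ ∀ n : ℕ, 2 ≤ n → ∀ x : ℝ, 0 ≤ x →
    ‖MT x n‖ ≤ ‖cn x n‖ + C * Real.log n ^ 4 * (1 + x) ^ (-2 / 3 : ℝ) := by
  obtain ⟨C1, h1⟩ := R1_bound
  obtain ⟨C2, h2⟩ := JU_bound
  obtain ⟨C3, h3⟩ := JL_bound
  refine ⟨|C1| + |C2| + |C3|, by positivity, fun n hn x hx => ?_⟩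
  have e : MT x n = cn x n - R1 x n + JU x n + JL x n := by rw [cn_eq hn hx]; ring
  have a1 := (h1 n hn x hx).2
  have a2 := h2 n hn x hx
  have a3 := h3 n hn x hx
  have hp : 0 ≤ Real.log n ^ 4 * (1 + x) ^ (-2 / 3 : ℝ) := by positivity
  rw [mul_assoc] at a1 a2 a3 ⊢
  have b1 := mul_le_mul_of_nonneg_right (le_abs_self C1) hp
  have b2 := mul_le_mul_of_nonneg_right (le_abs_self C2) hp
  have b3 := mul_le_mul_of_nonneg_right (le_abs_self C3) hp
  have c1 := norm_add_le (cn x n - R1 x n + JU x n) (JL x n)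
  have c2 := norm_add_le (cn x n - R1 x n) (JU x n)
  have c3 := norm_sub_le (cn x n) (R1 x n)
  rw [e]
  linarith

theorem lo_large : ∃ C : ℝ, ∀ n : ℕ, 2 ≤ n → ∀ f : ℝ → ℂ, (∀ x, 0 ≤ x → f x = cn x n) →
    IntegrableOn (fun x => ‖f x‖ ^ 2) (Ioi 0) →
    Real.log n / 8192 - C ≤ ∫ x in Ioi (0 : ℝ), ‖f x‖ ^ 2 := by
  obtain ⟨C1, p1, h1⟩ := loA_spec
  obtain ⟨C2, p2, h2⟩ := lo_err
  refine ⟨700 + 6 * C2 ^ 2 * 48 ^ 8 + C1 * 48 ^ 9, fun n hn f hf hi => ?_⟩
  obtain ⟨a1, a2, a3, a4⟩ := h1 n hn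
  have hN : (2 : ℝ) ≤ n := by exact_mod_cast hn
  obtain ⟨y, hy1, hy⟩ : ∃ y : ℝ, 1 ≤ y ∧ (n : ℝ) = y ^ 48 :=
    ⟨(n : ℝ) ^ ((48 : ℕ) : ℝ)⁻¹, Real.one_le_rpow (by linarith) (by positivity),
      (Real.rpow_inv_natCast_pow (by linarith) (by norm_num)).symm⟩
  have hy0 : 0 < y := by linarith
  set Q := ⌊y⌋₊ with hQ
  have q1 : (Q : ℝ) ≤ y := Nat.floor_le hy0.le
  have q2 : y < Q + 1 := Nat.lt_floor_add_one y
  have l0 : 0 ≤ Real.log n := Real.log_nonneg (by linarith)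
  have l1 : Real.log n = 48 * Real.log y := by rw [hy, Real.log_pow]; norm_num
  have l2 : Real.log n ≤ 48 * y := by linarith [Real.log_le_sub_one_of_pos hy0]
  have l3 : Real.log n ≤ 48 * Real.log (Q + 1) := by linarith [Real.log_le_log hy0 q2.le]
  have l4 : 1 + Real.log (n + 1) ≤ 50 * y := by
    have b1 := Real.log_le_log (show (0 : ℝ) < n + 1 by linarith) (show (n : ℝ) + 1 ≤ 2 * n by linarith)
    rw [Real.log_mul two_ne_zero (by linarith)] at b1
    linarith [Real.log_two_lt_d9]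
  have l5 : 0 ≤ 1 + Real.log (n + 1) := by
    linarith [Real.log_nonneg (show (1 : ℝ) ≤ n + 1 by linarith)]
  have pw : ∀ i j : ℕ, i ≤ j → y ^ i / y ^ j ≤ 1 := fun i j h =>
    (div_le_one (by positivity)).2 (pow_le_pow_right₀ hy1 h)
  have hP := lo_P (n := n) (Q := Q) (Y := y ^ 12) (by positivity) (le_of_eq (by rw [hy]; ring))
    fun h => by
      have b1 : (2 : ℝ) ≤ Q := by exact_mod_cast h
      have b2 : y ^ 3 ≤ y ^ 48 := pow_le_pow_right₀ hy1 (by norm_num)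
      have b3 : (Q : ℝ) ^ 3 ≤ y ^ 3 := by gcongr
      have b4 : (2 * Q + 1 : ℝ) ≤ n := by nlinarith [mul_le_mul b1 b1 two_pos.le (by linarith)]
      exact_mod_cast b4
  have hNn := lo_N (n := n) (Q := Q) (by omega)
  have hD := lo_D n Q
  have w2 : MemLp (loW n Q) 2 := (memLp_two_iff_integrable_sq_norm (loW_int n Q).1).2 (loW_sq n Q)
  obtain ⟨w3, w4⟩ := plancherel (loW_int n Q) (loW_sq n Q)
  rw [← lo_parseval a1 a2 (loW_int n Q) w2] at hP
  have hX : (0 : ℝ) < n / 8 := by positivity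
  have hX' : (0 : ℝ) < n / 16 := by positivity
  have ie := integrableOn_Ioi_rpow_of_lt (a := -4 / 3) (by norm_num) hX
  have iu := integrableOn_Ioi_rpow_of_lt (a := -2) (by norm_num) hX'
  have key := lo_ineq (M := 𝓕 (loA n)) (w := 𝓕 (loW n Q)) (X := n / 8) (η := 1 / y ^ 9)
    (a := fun x => ‖f x‖) (b := fun x => C2 * Real.log n ^ 4 * (1 + x) ^ (-2 / 3 : ℝ))
    (f := (Ioi 0).indicator fun x => ‖f x‖ ^ 2)
    (e := (Ioi ((n : ℝ) / 8)).indicator fun x => C2 ^ 2 * Real.log n ^ 8 * x ^ (-4 / 3 : ℝ))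
    (u := fun x => ((Ioi ((n : ℝ) / 16)).indicator fun t => 4 * (Q : ℝ) ^ 2 * t ^ (-2 : ℝ)) (n / 4 - x))
    (by positivity) (plancherel a1 ((memLp_two_iff_integrable_sq_norm a1.1).1 a2)).1 w3
    (hi.integrable_indicator measurableSet_Ioi)
    (IntegrableOn.integrable_indicator (ie.const_mul _) measurableSet_Ioi)
    ((IntegrableOn.integrable_indicator (iu.const_mul _) measurableSet_Ioi).comp_sub_left _)
    (fun x => indicator_nonneg (fun _ _ => by positivity) x)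
    (fun x => indicator_nonneg (fun t ht => by have := hX.trans ht; positivity) x)
    (fun x => indicator_nonneg (fun t ht => by have := hX'.trans ht; positivity) _)
    (fun x hx => by
      have x0 : 0 < x := hX.trans hx
      refine ⟨?_, by rw [indicator_of_mem (mem_Ioi.2 x0)], ?_⟩
      · rw [← a3 x x0.le, hf x x0.le]
        exact h2 n hn x x0.le
      · have b1 : (1 + x) ^ (-2 / 3 : ℝ) ≤ x ^ (-2 / 3 : ℝ) :=
          Real.rpow_le_rpow_of_nonpos x0 (by linarith) (by norm_num)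
        have b2 : x ^ (-4 / 3 : ℝ) = (x ^ (-2 / 3 : ℝ)) ^ 2 := by
          rw [← Real.rpow_natCast, ← Real.rpow_mul x0.le]; norm_num
        rw [indicator_of_mem (mem_Ioi.2 hx), b2]
        calc _ ≤ (C2 * Real.log n ^ 4 * x ^ (-2 / 3 : ℝ)) ^ 2 := by gcongr
          _ = _ := by ring)
    (fun x hx => by
      have x0 : (n : ℝ) / 16 < n / 4 - x := by linarith
      have x1 : 0 < (n : ℝ) / 4 - x := hX'.trans x0
      rw [indicator_of_mem (mem_Ioi.2 x0)]
      refine (pow_le_pow_left₀ (norm_nonneg _) (lo_w (by omega) hx) 2).trans (le_of_eq ?_)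
      rw [Real.rpow_neg x1.le, Real.rpow_two]
      field_simp
      ring)
  rw [integral_sub_left_eq_self ((Ioi ((n : ℝ) / 16)).indicator
      fun t => 4 * (Q : ℝ) ^ 2 * t ^ (-2 : ℝ)) volume, integral_indicator measurableSet_Ioi,
    integral_indicator measurableSet_Ioi, integral_indicator measurableSet_Ioi, integral_const_mul,
    integral_const_mul, integral_Ioi_rpow_of_lt (by norm_num) hX,
    integral_Ioi_rpow_of_lt (by norm_num) hX', w4] at key
  have t1 : Q * (24 * Q ^ 2 / n * ((y ^ 12) ^ 3 * (1 + Real.log (n + 1)))) ≤ 1200 := by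
    calc _ ≤ y * (24 * y ^ 2 / n * ((y ^ 12) ^ 3 * (50 * y))) := by gcongr
      _ = 1200 * (y ^ 40 / y ^ 48) := by rw [hy]; ring
      _ ≤ _ := by linarith [pw 40 48 (by norm_num)]
  have t2 : (Q : ℝ) * (Q * (12 * Q ^ 2 / n)) ≤ 12 := by
    calc _ ≤ y * (y * (12 * y ^ 2 / n)) := by gcongr
      _ = 12 * (y ^ 4 / y ^ 48) := by rw [hy]; ring
      _ ≤ _ := by linarith [pw 4 48 (by norm_num)]
  have t3 : C2 ^ 2 * Real.log n ^ 8 * (-((n : ℝ) / 8) ^ (-4 / 3 + 1 : ℝ) / (-4 / 3 + 1))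
      ≤ 6 * C2 ^ 2 * 48 ^ 8 := by
    have b1 : ((n : ℝ) / 8) ^ (-4 / 3 + 1 : ℝ) = 2 / y ^ 16 := by
      rw [show (n : ℝ) / 8 = (y ^ 16 / 2) ^ 3 by rw [hy]; ring, ← Real.rpow_natCast,
        ← Real.rpow_mul (by positivity)]
      norm_num [Real.rpow_neg_one]
    rw [b1]
    calc _ = C2 ^ 2 * Real.log n ^ 8 * (6 / y ^ 16) := by ring
      _ ≤ C2 ^ 2 * (48 * y) ^ 8 * (6 / y ^ 16) := by gcongr
      _ = 6 * C2 ^ 2 * 48 ^ 8 * (y ^ 8 / y ^ 16) := by ring
      _ ≤ _ := mul_le_of_le_one_right (by positivity) (pw 8 16 (by norm_num))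
  have t4 : 1 / y ^ 9 * ∫ x, ‖𝓕 (loA n) x‖ ^ 2 ≤ C1 * 48 ^ 9 := by
    calc _ ≤ 1 / y ^ 9 * (C1 * (48 * y) ^ 9) := by
          refine mul_le_mul_of_nonneg_left (a4.trans ?_) (by positivity)
          gcongr
      _ = _ := by field_simp
  have t5 : 1 / (1 / y ^ 9) * (4 * (Q : ℝ) ^ 2 * (-((n : ℝ) / 16) ^ (-2 + 1 : ℝ) / (-2 + 1)))
      ≤ 64 := by
    have b1 : ((n : ℝ) / 16) ^ (-2 + 1 : ℝ) = 16 / y ^ 48 := by
      rw [hy]
      norm_num [Real.rpow_neg_one]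
    rw [b1]
    calc _ = y ^ 9 * (4 * (Q : ℝ) ^ 2 * (16 / y ^ 48)) := by field_simp; norm_num
      _ ≤ y ^ 9 * (4 * y ^ 2 * (16 / y ^ 48)) := by gcongr
      _ = 64 * (y ^ 11 / y ^ 48) := by ring
      _ ≤ _ := by linarith [pw 11 48 (by norm_num)]
  have t6 : 0 ≤ C1 * 48 ^ 9 := by positivity
  have t7 : 0 ≤ C2 ^ 2 * 48 ^ 8 := by positivity
  linarith

theorem lo_all : ∃ c : ℝ, 0 < c ∧ ∀ n : ℕ, 2 ≤ n → ∀ b : SchwartzMap ℝ ℂ, (∀ r : ℝ, b (-r) = b r) →
    (∀ ξ : ℝ, 𝓕 (b : ℝ → ℂ) ξ = b ξ) → (∀ m : ℕ, b (√m) = if m = n then 1 else 0) →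
    c * Real.log n ≤ ∫ x in Ioi (0 : ℝ), ‖b (√x)‖ ^ 2 := by
  obtain ⟨C, hC⟩ := lo_large
  obtain ⟨C0, h0⟩ := main
  let P : ℕ → ℝ → Prop := fun n c => 2 ≤ n → ∀ b : SchwartzMap ℝ ℂ, (∀ r : ℝ, b (-r) = b r) →
    (∀ ξ : ℝ, 𝓕 (b : ℝ → ℂ) ξ = b ξ) → (∀ m : ℕ, b (√m) = if m = n then 1 else 0) →
    c * Real.log n ≤ ∫ x in Ioi (0 : ℝ), ‖b (√x)‖ ^ 2
  have mono : ∀ n c c', c' ≤ c → P n c → P n c' := fun n c c' h hP hn b h1 h2 h3 =>
    (mul_le_mul_of_nonneg_right h (Real.log_natCast_nonneg n)).trans (hP hn b h1 h2 h3)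
  have each : ∀ n, ∃ c, 0 < c ∧ P n c := by
    intro n
    by_cases h : 2 ≤ n ∧ ∃ b : SchwartzMap ℝ ℂ, (∀ r : ℝ, b (-r) = b r) ∧
        (∀ ξ : ℝ, 𝓕 (b : ℝ → ℂ) ξ = b ξ) ∧ ∀ m : ℕ, b (√m) = if m = n then 1 else 0
    · obtain ⟨hn, b, h1, h2, h3⟩ := h
      have hN : (2 : ℝ) ≤ n := by exact_mod_cast hn
      have hL : 0 < Real.log n := Real.log_pos (by linarith)
      have hc : Continuous fun x : ℝ => ‖b (√x)‖ ^ 2 := by fun_prop
      have hp : 0 < ∫ x in Ioi (0 : ℝ), ‖b (√x)‖ ^ 2 := by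
        rw [setIntegral_pos_iff_support_of_nonneg_ae (Eventually.of_forall fun x => by positivity)
          (h0 n hn b h1 h2 h3).1]
        refine (hc.isOpen_support.inter isOpen_Ioi).measure_pos _ ⟨n, ?_, ?_⟩
        · simp [h3 n]
        · exact mem_Ioi.2 (by linarith)
      refine ⟨_, div_pos hp hL, fun _ b' k1 k2 k3 => ?_⟩
      rw [div_mul_cancel₀ _ hL.ne']
      refine le_of_eq (setIntegral_congr_fun measurableSet_Ioi fun x hx => ?_)
      simp only [val_eq (by omega) b h1 h2 h3 (le_of_lt hx), val_eq (by omega) b' k1 k2 k3 (le_of_lt hx)]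
    · exact ⟨1, one_pos, fun hn b h1 h2 h3 => absurd ⟨hn, b, h1, h2, h3⟩ h⟩
  have fin : ∀ N : ℕ, ∃ c, 0 < c ∧ ∀ n < N, P n c := by
    intro N
    induction N with
    | zero => exact ⟨1, one_pos, fun n h => absurd h (Nat.not_lt_zero n)⟩
    | succ N ih =>
      obtain ⟨c, p, hc⟩ := ih
      obtain ⟨c', p', hc'⟩ := each N
      refine ⟨min c c', lt_min p p', fun n h => ?_⟩
      rcases Nat.lt_succ_iff_lt_or_eq.1 h with h | rfl
      · exact mono _ _ _ (min_le_left _ _) (hc n h)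
      · exact mono _ _ _ (min_le_right _ _) hc'
  obtain ⟨c, p, hc⟩ := fin ⌈Real.exp (16384 * C)⌉₊
  refine ⟨min c (1 / 16384), lt_min p (by norm_num), fun n => ?_⟩
  rcases lt_or_ge n ⌈Real.exp (16384 * C)⌉₊ with h | h
  · exact mono _ _ _ (min_le_left _ _) (hc n h)
  · refine mono _ _ _ (min_le_right _ _) fun hn b h1 h2 h3 => ?_
    have k1 := hC n hn (fun x => b (√x)) (fun x hx => val_eq (by omega) b h1 h2 h3 hx)
      (h0 n hn b h1 h2 h3).1
    have k2 := Real.log_le_log (Real.exp_pos _) (Nat.ceil_le.1 h)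
    rw [Real.log_exp] at k2
    linarith

end

end Pool.Agent.MP_9f080f_an
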